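import Mathlib

set_option autoImplicit false

/-!
Covering by translates of the polar body along the lattice of vertices.
-/

namespace Pool.Agent.H.MP_d7d3dc_an.H98

open MeasureTheory Set Filter Module Submodule ZSpan
open scoped ENNReal Pointwise

variable {m : ℕ}

/-- covering by finitely many cosets of a lattice -/
lemma cover_bound (b : Basis (Fin m) ℝ (Fin m → ℝ)) {κ : Type} [Fintype κ] (w : κ → Fin m → ℝ)
    {K : Set (Fin m → ℝ)}
    (h : ∀ y : Fin m → ℝ, ∃ k, ∃ z ∈ span ℤ (Set.range b), y - (w k + z) ∈ K) :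
    volume (fundamentalDomain b) ≤ Fintype.card κ * volume K := by
  have : VAddInvariantMeasure (span ℤ (Set.range b)) (Fin m → ℝ) volume :=
    inferInstanceAs <| VAddInvariantMeasure (span ℤ (Set.range b)).toAddSubgroup (Fin m → ℝ) volume
  have hfd := ZSpan.isAddFundamentalDomain b (volume : Measure (Fin m → ℝ))
  set T : κ → Set (Fin m → ℝ) := fun k => (fun x => x - w k) ⁻¹' K with hT
  have hTv : ∀ k, volume (T k) = volume K := by
    intro k
    have := measure_preimage_add_right (volume : Measure (Fin m → ℝ)) (-(w k)) K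
    simp only [hT, sub_eq_add_neg]
    exact this
  have hsub : fundamentalDomain b ⊆
      ⋃ k, ⋃ z : span ℤ (Set.range b), (z +ᵥ T k) ∩ fundamentalDomain b := by
    intro y hy
    obtain ⟨k, z, hz, hyz⟩ := h y
    refine mem_iUnion.2 ⟨k, mem_iUnion.2 ⟨⟨z, hz⟩, ?_, hy⟩⟩
    refine ⟨y - z, ?_, ?_⟩
    · show y - z - w k ∈ K
      have : y - z - w k = y - (w k + z) := by abel
      rw [this]; exact hyz
    · show (⟨z, hz⟩ : span ℤ (Set.range b)) +ᵥ (y - z) = y
      show z + (y - z) = y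
      abel
  calc volume (fundamentalDomain b) ≤ volume (⋃ k, ⋃ z : span ℤ (Set.range b),
        (z +ᵥ T k) ∩ fundamentalDomain b) := measure_mono hsub
    _ ≤ ∑ k, volume (⋃ z : span ℤ (Set.range b), (z +ᵥ T k) ∩ fundamentalDomain b) :=
        measure_iUnion_fintype_le _ _
    _ ≤ ∑ k, ∑' z : span ℤ (Set.range b), volume ((z +ᵥ T k) ∩ fundamentalDomain b) :=
        Finset.sum_le_sum fun k _ => measure_iUnion_le _
    _ = ∑ k, volume (T k) := by
        refine Finset.sum_congr rfl fun k _ => ?_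
        exact (hfd.measure_eq_tsum (T k)).symm
    _ = Fintype.card κ * volume K := by
        simp [hTv]

/-- a nearest point in a finite union of cosets -/
lemma exists_nearest (b : Basis (Fin m) ℝ (Fin m → ℝ)) {κ : Type} [Fintype κ] [Nonempty κ]
    (w : κ → Fin m → ℝ) (y : Fin m → ℝ) :
    ∃ g ∈ {x : Fin m → ℝ | ∃ k, x - w k ∈ span ℤ (Set.range b)},
      ∀ g' ∈ {x : Fin m → ℝ | ∃ k, x - w k ∈ span ℤ (Set.range b)},
        (y - g) ⬝ᵥ (y - g) ≤ (y - g') ⬝ᵥ (y - g') := by
  obtain ⟨k₀⟩ := (inferInstance : Nonempty κ)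
  set Γ : Set (Fin m → ℝ) := {x | ∃ k, x - w k ∈ span ℤ (Set.range b)} with hΓ
  set r : ℝ := (y - w k₀) ⬝ᵥ (y - w k₀) with hr
  have hk₀ : w k₀ ∈ Γ := ⟨k₀, by simp⟩
  set S : Set (Fin m → ℝ) := {g | g ∈ Γ ∧ (y - g) ⬝ᵥ (y - g) ≤ r} with hS
  have hfin : S.Finite := by
    have hsub : S ⊆ ⋃ k, (fun x => x + w k) ''
        (Metric.closedBall (y - w k) (Real.sqrt r) ∩ (span ℤ (Set.range b) : Set (Fin m → ℝ))) := by
      rintro g ⟨⟨k, hk⟩, hg⟩
      refine mem_iUnion.2 ⟨k, g - w k, ⟨?_, hk⟩, by simp⟩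
      rw [Metric.mem_closedBall, dist_eq_norm]
      have : g - w k - (y - w k) = -(y - g) := by abel
      rw [this, norm_neg, pi_norm_le_iff_of_nonneg (Real.sqrt_nonneg _)]
      intro i
      rw [Real.norm_eq_abs]
      apply Real.abs_le_sqrt
      refine le_trans ?_ hg
      rw [dotProduct]
      have := Finset.single_le_sum (f := fun i => (y - g) i * (y - g) i)
        (fun j _ => mul_self_nonneg _) (Finset.mem_univ i)
      simpa [pow_two] using this
    refine Set.Finite.subset (Set.finite_iUnion fun k => ?_) hsub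
    exact (ZSpan.setFinite_inter b Metric.isBounded_closedBall).image _
  obtain ⟨g, hg, hmin⟩ := Set.exists_min_image S (fun g => (y - g) ⬝ᵥ (y - g)) hfin
    ⟨w k₀, hk₀, le_rfl⟩
  refine ⟨g, hg.1, fun g' hg' => ?_⟩
  by_cases h : (y - g') ⬝ᵥ (y - g') ≤ r
  · exact hmin g' ⟨hg', h⟩
  · exact hg.2.trans (le_of_not_ge h)

lemma abs_dot_le {x v : Fin m → ℝ} (h1 : x ⬝ᵥ x ≤ (x - v) ⬝ᵥ (x - v))
    (h2 : x ⬝ᵥ x ≤ (x + v) ⬝ᵥ (x + v)) : |x ⬝ᵥ v| ≤ (v ⬝ᵥ v) / 2 := by
  have e : v ⬝ᵥ x = x ⬝ᵥ v := dotProduct_comm v x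
  rw [sub_dotProduct, dotProduct_sub, dotProduct_sub, e] at h1
  rw [add_dotProduct, dotProduct_add, dotProduct_add, e] at h2
  rw [abs_le]
  constructor <;> linarith


/-- the dot products with a basis determine a vector -/
lemma ext_of_dot {ι : Type*} {v : ι → Fin m → ℝ} (hv : span ℝ (Set.range v) = ⊤)
    {x y : Fin m → ℝ} (h : ∀ i, x ⬝ᵥ v i = y ⬝ᵥ v i) : x = y := by
  have h1 : ∀ z : Fin m → ℝ, (x - y) ⬝ᵥ z = 0 := by
    intro z
    have hz : z ∈ span ℝ (Set.range v) := by rw [hv]; trivial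
    induction hz using Submodule.span_induction with
    | mem z hz =>
      obtain ⟨i, rfl⟩ := hz
      rw [sub_dotProduct, h i, sub_self]
    | zero => simp
    | add a b _ _ ha hb => rw [dotProduct_add, ha, hb, add_zero]
    | smul c a _ ha => rw [dotProduct_smul, ha, smul_zero]
  have h2 := h1 (x - y)
  rw [dotProduct_self_eq_zero] at h2
  exact sub_eq_zero.1 h2

/-- twice the dual basis -/
lemma exists_dual (b : Basis (Fin m) ℝ (Fin m → ℝ)) :
    ∃ d : Basis (Fin m) ℝ (Fin m → ℝ), (∀ j i, d j ⬝ᵥ b i = if j = i then 2 else 0) ∧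
      volume (fundamentalDomain b) * volume (fundamentalDomain d) = 2 ^ m := by
  classical
  set B : Matrix (Fin m) (Fin m) ℝ := Matrix.of b with hB
  have hdet : B.det ≠ 0 := by
    have h1 := (ZSpan.measure_fundamentalDomain_ne_zero b (μ := (volume : Measure (Fin m → ℝ))))
    rw [ZSpan.volume_fundamentalDomain] at h1
    intro h0
    rw [← hB, h0] at h1
    simp at h1
  have hunit : IsUnit B.det := isUnit_iff_ne_zero.2 hdet
  set D : Matrix (Fin m) (Fin m) ℝ := (2 : ℝ) • (B⁻¹).transpose with hD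
  have hDdet : D.det = 2 ^ m * B.det⁻¹ := by
    rw [hD, Matrix.det_smul, Matrix.det_transpose, Matrix.det_nonsing_inv, Fintype.card_fin,
      Ring.inverse_eq_inv']
  have hDne : D.det ≠ 0 := by
    rw [hDdet]; positivity
  have hDB : D * B.transpose = (2 : ℝ) • (1 : Matrix (Fin m) (Fin m) ℝ) := by
    rw [hD, Matrix.smul_mul, ← Matrix.transpose_mul, Matrix.mul_nonsing_inv _ hunit,
      Matrix.transpose_one]
  have hli : LinearIndependent ℝ D.row := Matrix.linearIndependent_rows_iff_isUnit.2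
    ((Matrix.isUnit_iff_isUnit_det D).2 (isUnit_iff_ne_zero.2 hDne))
  set d : Basis (Fin m) ℝ (Fin m → ℝ) := basisOfPiSpaceOfLinearIndependent hli with hd
  have hdj : ∀ j, d j = D j := by
    intro j
    rw [hd, coe_basisOfPiSpaceOfLinearIndependent]
    rfl
  refine ⟨d, ?_, ?_⟩
  · intro j i
    rw [hdj]
    have := congrFun (congrFun hDB j) i
    rw [Matrix.mul_apply] at this
    simp only [Matrix.transpose_apply, hB, Matrix.of_apply, Matrix.smul_apply, Matrix.one_apply,
      smul_eq_mul] at this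
    rw [dotProduct, this]
    split_ifs <;> simp
  · rw [ZSpan.volume_fundamentalDomain, ZSpan.volume_fundamentalDomain]
    have : (Matrix.of d : Matrix (Fin m) (Fin m) ℝ) = D := by
      ext j i
      rw [Matrix.of_apply, hdj]
    rw [this, ← hB, hDdet, ← ENNReal.ofReal_mul (abs_nonneg _), ← abs_mul]
    have e : B.det * (2 ^ m * B.det⁻¹) = 2 ^ m := by field_simp
    rw [e, abs_of_pos (by positivity), ENNReal.ofReal_pow (by norm_num)]
    simp

lemma mem_span_dual {b d : Basis (Fin m) ℝ (Fin m → ℝ)}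
    (hd : ∀ j i, d j ⬝ᵥ b i = if j = i then 2 else 0) {x : Fin m → ℝ}
    (hx : ∀ i, ∃ n : ℤ, x ⬝ᵥ b i = 2 * n) : x ∈ span ℤ (Set.range d) := by
  choose n hn using hx
  have : x = ∑ j, (n j) • d j := by
    apply ext_of_dot b.span_eq
    intro i
    rw [hn i, sum_dotProduct]
    simp only [← Int.cast_smul_eq_zsmul ℝ, smul_dotProduct, hd, smul_eq_mul, mul_ite, mul_zero]
    rw [Finset.sum_ite_eq' Finset.univ i]
    simp [mul_comm]
  rw [this]
  exact Submodule.sum_mem _ fun j _ => Submodule.smul_mem _ _ (subset_span ⟨j, rfl⟩)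

lemma dual_mem {b d : Basis (Fin m) ℝ (Fin m → ℝ)}
    (hd : ∀ j i, d j ⬝ᵥ b i = if j = i then 2 else 0) {x : Fin m → ℝ}
    (hx : x ∈ span ℤ (Set.range d)) (i : Fin m) : ∃ n : ℤ, x ⬝ᵥ b i = 2 * n := by
  induction hx using Submodule.span_induction with
  | mem z hz =>
    obtain ⟨j, rfl⟩ := hz
    rw [hd]
    by_cases h : j = i
    · exact ⟨1, by simp [h]⟩
    · exact ⟨0, by simp [h]⟩
  | zero => exact ⟨0, by simp⟩
  | add a b _ _ ha hb =>
    obtain ⟨n, hn⟩ := ha
    obtain ⟨k, hk⟩ := hb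
    exact ⟨n + k, by rw [add_dotProduct, hn, hk]; push_cast; ring⟩
  | smul c a _ ha =>
    obtain ⟨n, hn⟩ := ha
    exact ⟨c * n, by
      rw [← Int.cast_smul_eq_zsmul ℝ, smul_dotProduct, hn, smul_eq_mul]; push_cast; ring⟩


/-- A basis whose members lie in a given spanning family. -/
theorem exists_basis_of_family {κ : Type*} {q : κ → Fin m → ℝ}
    (hq : span ℝ (Set.range q) = ⊤) :
    ∃ c : Basis (Fin m) ℝ (Fin m → ℝ), ∀ j, c j ∈ Set.range q := by
  obtain ⟨f, hf, hspan, hli⟩ := Submodule.exists_fun_fin_finrank_span_eq ℝ (Set.range q)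
  have hfr : finrank ℝ (Submodule.span ℝ (Set.range q)) = m := by rw [hq, finrank_top]; simp
  set b := Basis.mk hli (by rw [hspan, hq])
  refine ⟨b.reindex (finCongr hfr), fun i => ?_⟩
  simp only [Basis.reindex_apply, b, Basis.mk_apply]
  exact hf _

/-- integrality extends from generators to the lattice -/
lemma int_dot {ι : Type*} {p : ι → Fin m → ℝ} {w : Fin m → ℝ} (h : ∀ i, ∃ n : ℤ, w ⬝ᵥ p i = n)
    {z : Fin m → ℝ} (hz : z ∈ span ℤ (Set.range p)) : ∃ n : ℤ, w ⬝ᵥ z = n := by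
  induction hz using Submodule.span_induction with
  | mem z hz => obtain ⟨i, rfl⟩ := hz; exact h i
  | zero => exact ⟨0, by simp⟩
  | add a b _ _ ha hb =>
    obtain ⟨n, hn⟩ := ha
    obtain ⟨k, hk⟩ := hb
    exact ⟨n + k, by rw [dotProduct_add, hn, hk]; push_cast; ring⟩
  | smul c a _ ha =>
    obtain ⟨n, hn⟩ := ha
    exact ⟨c * n, by
      rw [← Int.cast_smul_eq_zsmul ℝ, dotProduct_smul, hn, smul_eq_mul]; push_cast; ring⟩

lemma even_dot {ι : Type*} {p : ι → Fin m → ℝ} {w : Fin m → ℝ}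
    (h : ∀ i, ∃ n : ℤ, w ⬝ᵥ p i = 2 * n)
    {z : Fin m → ℝ} (hz : z ∈ span ℤ (Set.range p)) : ∃ n : ℤ, w ⬝ᵥ z = 2 * n := by
  induction hz using Submodule.span_induction with
  | mem z hz => obtain ⟨i, rfl⟩ := hz; exact h i
  | zero => exact ⟨0, by simp⟩
  | add a b _ _ ha hb =>
    obtain ⟨n, hn⟩ := ha
    obtain ⟨k, hk⟩ := hb
    exact ⟨n + k, by rw [dotProduct_add, hn, hk]; push_cast; ring⟩
  | smul c a _ ha =>
    obtain ⟨n, hn⟩ := ha
    exact ⟨c * n, by
      rw [← Int.cast_smul_eq_zsmul ℝ, dotProduct_smul, hn, smul_eq_mul]; push_cast; ring⟩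

/-- the lattice generated by vectors with integer products with a spanning family is discrete -/
lemma discrete_span {ι κ : Type*} {p : ι → Fin m → ℝ} {q : κ → Fin m → ℝ}
    (hq : span ℝ (Set.range q) = ⊤) (h : ∀ k i, ∃ n : ℤ, q k ⬝ᵥ p i = n) :
    DiscreteTopology (span ℤ (Set.range p)) := by
  obtain ⟨c, hc⟩ := exists_basis_of_family hq
  obtain ⟨d, hd, -⟩ := exists_dual c
  have hmem : ∀ z ∈ span ℤ (Set.range p), (2 : ℝ) • z ∈ span ℤ (Set.range d) := by
    intro z hz
    apply mem_span_dual hd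
    intro i
    obtain ⟨k, hk⟩ := hc i
    obtain ⟨n, hn⟩ := int_dot (w := q k) (fun i => h k i) hz
    refine ⟨n, ?_⟩
    rw [smul_dotProduct, ← hk, dotProduct_comm, hn, smul_eq_mul]
  refine DiscreteTopology.of_continuous_injective
    (β := span ℤ (Set.range d)) (f := fun z => ⟨(2 : ℝ) • (z : Fin m → ℝ), hmem z z.2⟩) ?_ ?_
  · exact Continuous.subtype_mk (by fun_prop) _
  · intro z w hzw
    have h1 := congrArg Subtype.val hzw
    apply Subtype.ext
    exact smul_right_injective _ (two_ne_zero (α := ℝ)) h1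

/-- **Main lattice estimate.** -/
theorem lattice_bound {ι κ : Type*} [Nonempty κ] {p : ι → Fin m → ℝ} {q : κ → Fin m → ℝ}
    (hp : span ℝ (Set.range p) = ⊤) (hq : span ℝ (Set.range q) = ⊤)
    (h : ∀ k i, q k ⬝ᵥ p i = 1 ∨ q k ⬝ᵥ p i = -1) {a b : ℝ} (ha : ∀ i, p i ⬝ᵥ p i ≤ a)
    (hb : ∀ k, q k ⬝ᵥ q k ≤ b) :
    (2 : ℝ≥0∞) ^ m ≤ 2 * (volume {x : Fin m → ℝ | ∀ i, |x ⬝ᵥ p i| ≤ a / 2} *
      volume {x : Fin m → ℝ | ∀ k, |x ⬝ᵥ q k| ≤ b / 2}) := by
  have hint : ∀ k i, ∃ n : ℤ, q k ⬝ᵥ p i = n := by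
    intro k i
    rcases h k i with h1 | h1
    · exact ⟨1, by rw [h1]; simp⟩
    · exact ⟨-1, by rw [h1]; simp⟩
  have hdisc := discrete_span hq hint
  have hlat : IsZLattice ℝ (span ℤ (Set.range p)) := by
    refine ⟨?_⟩
    rw [eq_top_iff, ← hp]
    exact span_mono subset_span
  set b0 := IsZLattice.basis (span ℤ (Set.range p)) with hb0
  set B : Basis (Fin m) ℝ (Fin m → ℝ) := b0.ofZLatticeBasis ℝ with hB
  have hBspan : span ℤ (Set.range B) = span ℤ (Set.range p) := b0.ofZLatticeBasis_span ℝ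
  have hBmem : ∀ i, B i ∈ span ℤ (Set.range p) := by
    intro i
    rw [← hBspan]
    exact subset_span ⟨i, rfl⟩
  obtain ⟨d, hd, hvol⟩ := exists_dual B
  -- first covering
  have c1 : volume (fundamentalDomain B) ≤ volume {x : Fin m → ℝ | ∀ i, |x ⬝ᵥ p i| ≤ a / 2} := by
    have := cover_bound B (κ := Unit) (fun _ => 0)
      (K := {x : Fin m → ℝ | ∀ i, |x ⬝ᵥ p i| ≤ a / 2}) (by
        intro y
        obtain ⟨g, hg, hmin⟩ := exists_nearest B (κ := Unit) (fun _ => 0) y
        obtain ⟨_, hg⟩ := hg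
        rw [sub_zero] at hg
        refine ⟨(), g, hg, ?_⟩
        intro i
        rw [zero_add]
        have hpi : p i ∈ span ℤ (Set.range B) := by rw [hBspan]; exact subset_span ⟨i, rfl⟩
        refine (abs_dot_le (v := p i) ?_ ?_).trans (by linarith [ha i])
        · have := hmin (g + p i) ⟨(), by rw [sub_zero]; exact add_mem hg hpi⟩
          rwa [← sub_sub] at this
        · have := hmin (g - p i) ⟨(), by rw [sub_zero]; exact sub_mem hg hpi⟩
          rwa [sub_sub_eq_add_sub, add_sub_right_comm] at this)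
    simpa using this
  -- second covering
  obtain ⟨k₀⟩ := (inferInstance : Nonempty κ)
  have hqd : ∀ k, q k - q k₀ ∈ span ℤ (Set.range d) := by
    intro k
    apply mem_span_dual hd
    intro i
    refine even_dot (p := p) ?_ (hBmem i)
    intro j
    rw [sub_dotProduct]
    rcases h k j with h1 | h1 <;> rcases h k₀ j with h2 | h2 <;> rw [h1, h2]
    · exact ⟨0, by norm_num⟩
    · exact ⟨1, by norm_num⟩
    · exact ⟨-1, by norm_num⟩
    · exact ⟨0, by norm_num⟩
  have hq2 : (2 : ℝ) • q k₀ ∈ span ℤ (Set.range d) := by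
    apply mem_span_dual hd
    intro i
    obtain ⟨n, hn⟩ := int_dot (w := q k₀) (fun i => hint k₀ i) (hBmem i)
    exact ⟨n, by rw [smul_dotProduct, hn, smul_eq_mul]⟩
  have c2 : volume (fundamentalDomain d) ≤
      2 * volume {x : Fin m → ℝ | ∀ k, |x ⬝ᵥ q k| ≤ b / 2} := by
    set w : Bool → Fin m → ℝ := fun t => if t then q k₀ else 0 with hw
    have hΓ : ∀ g ∈ {x : Fin m → ℝ | ∃ k, x - w k ∈ span ℤ (Set.range d)}, ∀ k,
        g + q k ∈ {x : Fin m → ℝ | ∃ k, x - w k ∈ span ℤ (Set.range d)} ∧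
        g - q k ∈ {x : Fin m → ℝ | ∃ k, x - w k ∈ span ℤ (Set.range d)} := by
      rintro g ⟨t, ht⟩ k
      cases t with
      | false =>
        simp only [hw, Bool.false_eq_true, if_false, sub_zero] at ht
        refine ⟨⟨true, ?_⟩, ⟨true, ?_⟩⟩
        · simp only [hw, if_true]
          have e : g + q k - q k₀ = g + (q k - q k₀) := by abel
          rw [e]; exact add_mem ht (hqd k)
        · simp only [hw, if_true]
          have e : g - q k - q k₀ = g - (q k - q k₀) - (2 : ℝ) • q k₀ := by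
            rw [two_smul]; abel
          rw [e]; exact sub_mem (sub_mem ht (hqd k)) hq2
      | true =>
        simp only [hw, if_true] at ht
        refine ⟨⟨false, ?_⟩, ⟨false, ?_⟩⟩
        · simp only [hw, Bool.false_eq_true, if_false, sub_zero]
          have e : g + q k = (g - q k₀) + (q k - q k₀) + (2 : ℝ) • q k₀ := by
            rw [two_smul]; abel
          rw [e]; exact add_mem (add_mem ht (hqd k)) hq2
        · simp only [hw, Bool.false_eq_true, if_false, sub_zero]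
          have e : g - q k = (g - q k₀) - (q k - q k₀) := by abel
          rw [e]; exact sub_mem ht (hqd k)
    have := cover_bound d w (K := {x : Fin m → ℝ | ∀ k, |x ⬝ᵥ q k| ≤ b / 2}) (by
        intro y
        obtain ⟨g, hg, hmin⟩ := exists_nearest d w y
        obtain ⟨t, ht⟩ := id hg
        refine ⟨t, g - w t, ht, ?_⟩
        intro k
        rw [add_sub_cancel]
        refine (abs_dot_le (v := q k) ?_ ?_).trans (by linarith [hb k])
        · have := hmin _ (hΓ g hg k).1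
          rwa [← sub_sub] at this
        · have := hmin _ (hΓ g hg k).2
          rwa [sub_sub_eq_add_sub, add_sub_right_comm] at this)
    simpa using this
  calc (2 : ℝ≥0∞) ^ m = volume (fundamentalDomain B) * volume (fundamentalDomain d) := hvol.symm
    _ ≤ volume {x : Fin m → ℝ | ∀ i, |x ⬝ᵥ p i| ≤ a / 2} *
        (2 * volume {x : Fin m → ℝ | ∀ k, |x ⬝ᵥ q k| ≤ b / 2}) := by gcongr
    _ = _ := by ring

end Pool.Agent.H.MP_d7d3dc_an.H98
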