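import Pool.Agent.H.MP_d7d3dc_an.h98.PL

set_option autoImplicit false

/-!
The Blaschke–Santaló inequality for symmetric sets, up to a factor polynomial in the dimension.
-/

namespace Pool.Agent.H.MP_d7d3dc_an.H98

open MeasureTheory Set Filter
open scoped ENNReal Pointwise

/-- multiplicative Prékopa–Leindler inequality on the half line -/
theorem pl_mul {F G H : ℝ → ℝ≥0∞} (hF : Measurable F) (hG : Measurable G) (hH : Measurable H)
    (h : ∀ s t : ℝ, 0 < s → 0 < t → F s * G t ≤ H (Real.sqrt (s * t)) ^ 2) :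
    (∫⁻ s in Ioi 0, F s) * (∫⁻ t in Ioi 0, G t) ≤ (∫⁻ r in Ioi 0, H r) ^ 2 := by
  have key : ∀ φ : ℝ → ℝ≥0∞, ∫⁻ s in Ioi 0, φ s
      = ∫⁻ u, ENNReal.ofReal (Real.exp u) * φ (Real.exp u) := by
    intro φ
    have h1 := lintegral_image_eq_lintegral_abs_deriv_mul (s := (univ : Set ℝ)) (f := Real.exp)
      (f' := Real.exp) MeasurableSet.univ (fun x _ => (Real.hasDerivAt_exp x).hasDerivWithinAt)
      Real.exp_injective.injOn φ
    rw [image_univ, Real.range_exp, setLIntegral_univ] at h1
    rw [h1]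
    refine lintegral_congr fun u => ?_
    rw [abs_of_pos (Real.exp_pos u)]
  rw [key F, key G, key H]
  have hpl := PL98.pl_one
    (F := fun u => ENNReal.ofReal (Real.exp u) * F (Real.exp u))
    (G := fun u => ENNReal.ofReal (Real.exp u) * G (Real.exp u))
    (H := fun u => ENNReal.ofReal (Real.exp u) * H (Real.exp u))
    ((Real.measurable_exp.ennreal_ofReal).mul (hF.comp Real.measurable_exp))
    ((Real.measurable_exp.ennreal_ofReal).mul (hG.comp Real.measurable_exp))
    ((Real.measurable_exp.ennreal_ofReal).mul (hH.comp Real.measurable_exp))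
    (a := 1 / 2) (b := 1 / 2) (by norm_num) (by norm_num) (by norm_num) ?_
  · have h2 := ENNReal.rpow_le_rpow hpl (z := 2) (by norm_num)
    rw [ENNReal.mul_rpow_of_nonneg _ _ (by norm_num : (0:ℝ) ≤ 2), ← ENNReal.rpow_mul,
      ← ENNReal.rpow_mul] at h2
    norm_num at h2
    exact h2
  · intro u v
    have h3 := h (Real.exp u) (Real.exp v) (Real.exp_pos u) (Real.exp_pos v)
    have h4 : Real.sqrt (Real.exp u * Real.exp v) = Real.exp (1 / 2 * u + 1 / 2 * v) := by
      rw [← Real.exp_add, Real.sqrt_eq_iff_mul_self_eq (Real.exp_pos _).le (Real.exp_pos _).le,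
        ← Real.exp_add]
      congr 1; ring
    rw [h4] at h3
    show (ENNReal.ofReal (Real.exp u) * F (Real.exp u)) ^ (1 / 2 : ℝ) *
      (ENNReal.ofReal (Real.exp v) * G (Real.exp v)) ^ (1 / 2 : ℝ) ≤
      ENNReal.ofReal (Real.exp (1 / 2 * u + 1 / 2 * v)) * H (Real.exp (1 / 2 * u + 1 / 2 * v))
    rw [← ENNReal.mul_rpow_of_nonneg _ _ (by norm_num : (0:ℝ) ≤ 1 / 2)]
    have h5 : ENNReal.ofReal (Real.exp u) * F (Real.exp u) *
        (ENNReal.ofReal (Real.exp v) * G (Real.exp v)) ≤
        (ENNReal.ofReal (Real.exp (1 / 2 * u + 1 / 2 * v)) *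
          H (Real.exp (1 / 2 * u + 1 / 2 * v))) ^ (2 : ℝ) := by
      have h6 : ENNReal.ofReal (Real.exp u) * ENNReal.ofReal (Real.exp v)
          = ENNReal.ofReal (Real.exp (1 / 2 * u + 1 / 2 * v)) ^ 2 := by
        rw [← ENNReal.ofReal_mul (Real.exp_pos u).le, ← ENNReal.ofReal_pow (Real.exp_pos _).le,
          ← Real.exp_add, ← Real.exp_nat_mul]
        congr 2; push_cast; ring
      calc ENNReal.ofReal (Real.exp u) * F (Real.exp u) *
          (ENNReal.ofReal (Real.exp v) * G (Real.exp v))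
          = (ENNReal.ofReal (Real.exp u) * ENNReal.ofReal (Real.exp v)) *
            (F (Real.exp u) * G (Real.exp v)) := by ring
        _ ≤ (ENNReal.ofReal (Real.exp (1 / 2 * u + 1 / 2 * v)) ^ 2) *
            (H (Real.exp (1 / 2 * u + 1 / 2 * v)) ^ 2) := by rw [h6]; gcongr
        _ = _ := by rw [← mul_pow]; norm_cast
    calc _ ≤ ((ENNReal.ofReal (Real.exp (1 / 2 * u + 1 / 2 * v)) *
          H (Real.exp (1 / 2 * u + 1 / 2 * v))) ^ (2 : ℝ)) ^ (1 / 2 : ℝ) :=
          ENNReal.rpow_le_rpow h5 (by norm_num)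
      _ = _ := by rw [← ENNReal.rpow_mul]; norm_num


/-- two symmetric measurable sets in duality -/
structure DualPair {n : ℕ} (K L : Set (Fin n → ℝ)) : Prop where
  mK : MeasurableSet K
  mL : MeasurableSet L
  sK : ∀ x ∈ K, -x ∈ K
  sL : ∀ y ∈ L, -y ∈ L
  le : ∀ x ∈ K, ∀ y ∈ L, x ⬝ᵥ y ≤ 1

/-- `C` is an upper bound for the volume product in dimension `n` -/
def VolBound (n : ℕ) (C : ℝ≥0∞) : Prop :=
  ∀ K L : Set (Fin n → ℝ), DualPair K L → volume K * volume L ≤ C

lemma VolBound.scaled {n : ℕ} {C : ℝ≥0∞} (hC : VolBound n C) {A M : Set (Fin n → ℝ)}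
    (mA : MeasurableSet A) (mM : MeasurableSet M) (sA : ∀ x ∈ A, -x ∈ A) (sM : ∀ y ∈ M, -y ∈ M)
    {ρ : ℝ} (hρ : 0 < ρ) (h : ∀ x ∈ A, ∀ y ∈ M, x ⬝ᵥ y ≤ ρ) :
    volume A * volume M ≤ C * ENNReal.ofReal (ρ ^ n) := by
  have hd : DualPair (ρ⁻¹ • A) M := by
    refine ⟨mA.const_smul₀ _, mM, ?_, sM, ?_⟩
    · rintro _ ⟨x, hx, rfl⟩
      exact ⟨-x, sA x hx, by simp⟩
    · rintro _ ⟨x, hx, rfl⟩ y hy
      show (ρ⁻¹ • x) ⬝ᵥ y ≤ 1
      rw [smul_dotProduct, smul_eq_mul, inv_mul_le_iff₀ hρ, mul_one]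
      exact h x hx y hy
  have h1 := hC _ _ hd
  have h2 : volume A = ENNReal.ofReal (ρ ^ n) * volume (ρ⁻¹ • A) := by
    rw [Measure.addHaar_smul, Module.finrank_fin_fun, ← mul_assoc, ← ENNReal.ofReal_mul (by positivity),
      abs_of_pos (by positivity), inv_pow, mul_inv_cancel₀ (by positivity), ENNReal.ofReal_one,
      one_mul]
  calc volume A * volume M = (volume (ρ⁻¹ • A) * volume M) * ENNReal.ofReal (ρ ^ n) := by
        rw [h2]; ring
    _ ≤ _ := by gcongr

/-- the length of the fibre -/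
noncomputable def fib {n : ℕ} (K : Set (ℝ × (Fin n → ℝ))) (x : Fin n → ℝ) : ℝ≥0∞ :=
  volume {τ : ℝ | (τ, x) ∈ K}

lemma measurable_fib {n : ℕ} {K : Set (ℝ × (Fin n → ℝ))} (hK : MeasurableSet K) :
    Measurable (fib K) := measurable_measure_prodMk_right hK

/-- the superlevel sets of the fibre length -/
def sup {n : ℕ} (K : Set (ℝ × (Fin n → ℝ))) (t : ℝ) : Set (Fin n → ℝ) :=
  {x | ENNReal.ofReal (2 * t) ≤ fib K x}

lemma fib_neg {n : ℕ} {K : Set (ℝ × (Fin n → ℝ))} (sK : ∀ z ∈ K, -z ∈ K) (x : Fin n → ℝ) :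
    fib K (-x) = fib K x := by
  have h1 : {τ : ℝ | (τ, -x) ∈ K} = -{τ : ℝ | (τ, x) ∈ K} := by
    ext τ
    simp only [mem_ofPred_eq, Set.mem_neg]
    constructor
    · intro h
      have := sK _ h
      simpa using this
    · intro h
      have := sK _ h
      simpa using this
  rw [fib, h1, Measure.measure_neg]
  rfl

lemma exists_far {S : Set ℝ} {t ε : ℝ} (ht : 0 < t) (hε : 0 < ε)
    (h : ENNReal.ofReal (2 * t) ≤ volume S) : ∃ τ₁ ∈ S, ∃ τ₂ ∈ S, 2 * t - ε ≤ τ₁ - τ₂ := by
  by_contra hcon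
  push Not at hcon
  have hne : S.Nonempty := by
    rw [Set.nonempty_iff_ne_empty]
    rintro rfl
    simp only [measure_empty, nonpos_iff_eq_zero, ENNReal.ofReal_eq_zero] at h
    linarith
  obtain ⟨τ₀, hτ₀⟩ := hne
  have hbdd : BddAbove S := ⟨τ₀ + (2 * t - ε), fun τ hτ => by linarith [hcon τ hτ τ₀ hτ₀]⟩
  have hbdb : BddBelow S := ⟨τ₀ - (2 * t - ε), fun τ hτ => by linarith [hcon τ₀ hτ₀ τ hτ]⟩
  have h1 : S ⊆ Icc (sInf S) (sSup S) := fun τ hτ => ⟨csInf_le hbdb hτ, le_csSup hbdd hτ⟩
  have h2 : sSup S - sInf S ≤ 2 * t - ε := by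
    have h3 : sSup S ≤ sInf S + (2 * t - ε) := by
      refine csSup_le ⟨τ₀, hτ₀⟩ fun τ₁ h₁ => ?_
      have : τ₁ - (2 * t - ε) ≤ sInf S := by
        refine le_csInf ⟨τ₀, hτ₀⟩ fun τ₂ h₂ => ?_
        linarith [hcon τ₁ h₁ τ₂ h₂]
      linarith
    linarith
  have h3 : volume S ≤ ENNReal.ofReal (2 * t - ε) := by
    calc volume S ≤ volume (Icc (sInf S) (sSup S)) := measure_mono h1
      _ = ENNReal.ofReal (sSup S - sInf S) := Real.volume_Icc
      _ ≤ _ := ENNReal.ofReal_le_ofReal h2
  have h4 := h.trans h3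
  have h5 : 0 ≤ 2 * t - ε := by
    by_contra hneg
    rw [ENNReal.ofReal_of_nonpos (p := 2 * t - ε) (by linarith), nonpos_iff_eq_zero,
      ENNReal.ofReal_eq_zero] at h4
    linarith
  rw [ENNReal.ofReal_le_ofReal_iff h5] at h4
  linarith

lemma section_bound {n : ℕ} {K L : Set (ℝ × (Fin n → ℝ))}
    (mL : MeasurableSet L) (sK : ∀ z ∈ K, -z ∈ K) (sL : ∀ z ∈ L, -z ∈ L)
    (h : ∀ z ∈ K, ∀ w ∈ L, z.1 * w.1 + z.2 ⬝ᵥ w.2 ≤ 1) {s t : ℝ} (hs : 0 < s) (ht : 0 < t) :
    ∃ M : Set (Fin n → ℝ), MeasurableSet M ∧ (∀ y ∈ M, -y ∈ M) ∧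
      volume {y | (s, y) ∈ L} ≤ volume M ∧ ∀ x ∈ sup K t, ∀ y ∈ M, x ⬝ᵥ y ≤ 1 - s * t := by
  set M : Set (Fin n → ℝ) := {y | ∀ x ∈ sup K t, x ⬝ᵥ y ≤ 1 - s * t} with hM
  have mM : MeasurableSet M := by
    have : M = ⋂ x ∈ sup K t, {y | x ⬝ᵥ y ≤ 1 - s * t} := by
      ext y; simp [hM]
    rw [this]
    refine IsClosed.measurableSet (isClosed_biInter fun x _ => ?_)
    refine isClosed_le ?_ continuous_const
    exact Continuous.dotProduct continuous_const continuous_id
  refine ⟨M, mM, ?_, ?_, fun x hx y hy => hy x hx⟩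
  · intro y hy x hx
    have hx' : -x ∈ sup K t := by
      show ENNReal.ofReal (2 * t) ≤ fib K (-x)
      rw [fib_neg sK]; exact hx
    have := hy _ hx'
    simpa using this
  · set A : Set (Fin n → ℝ) := {y | (s, y) ∈ L} with hA
    set B : Set (Fin n → ℝ) := {y | (-s, y) ∈ L} with hB
    have mA : MeasurableSet A := measurable_prodMk_left mL
    have mB : MeasurableSet B := measurable_prodMk_left mL
    have hAB : volume B = volume A := by
      have : B = -A := by
        ext y
        simp only [hA, hB, mem_ofPred_eq, Set.mem_neg]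
        constructor
        · intro hy; have := sL _ hy; simpa using this
        · intro hy; have := sL _ hy; simpa using this
      rw [this, Measure.measure_neg]
    have hsub : ∀ y₁ ∈ A, ∀ y₂ ∈ B, (1 / 2 : ℝ) • y₁ + (1 / 2 : ℝ) • y₂ ∈ M := by
      intro y₁ hy₁ y₂ hy₂ x hx
      refine le_of_forall_pos_le_add fun ε hε => ?_
      obtain ⟨τ₁, h₁, τ₂, h₂, hd⟩ := exists_far ht (ε := ε / s) (by positivity) hx
      have e1 := h _ h₁ _ hy₁
      have e2 := h _ h₂ _ hy₂
      simp only at e1 e2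
      rw [dotProduct_add, dotProduct_smul, dotProduct_smul, smul_eq_mul, smul_eq_mul]
      have e3 : s * (2 * t - ε / s) ≤ s * (τ₁ - τ₂) := mul_le_mul_of_nonneg_left hd hs.le
      have e4 : s * (ε / s) = ε := mul_div_cancel₀ _ hs.ne'
      nlinarith
    have hpl := PL98.pl_fin n (f := A.indicator 1) (g := B.indicator 1) (h := M.indicator 1)
      (measurable_one.indicator mA) (measurable_one.indicator mB) (measurable_one.indicator mM)
      (a := 1 / 2) (b := 1 / 2) (by norm_num) (by norm_num) (by norm_num) (by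
        intro x y
        by_cases hx : x ∈ A
        · by_cases hy : y ∈ B
          · have := hsub x hx y hy
            simp only [Set.indicator_of_mem hx, Set.indicator_of_mem hy, Pi.one_apply,
              ENNReal.one_rpow, mul_one]
            rw [Set.indicator_of_mem this]
            simp
          · rw [Set.indicator_of_notMem hy, ENNReal.zero_rpow_of_pos (by norm_num), mul_zero]
            exact bot_le
        · rw [Set.indicator_of_notMem hx, ENNReal.zero_rpow_of_pos (by norm_num), zero_mul]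
          exact bot_le)
    rw [lintegral_indicator_one mA, lintegral_indicator_one mB, lintegral_indicator_one mM, hAB,
      ← ENNReal.rpow_add_of_nonneg _ _ (by norm_num) (by norm_num)] at hpl
    norm_num at hpl
    exact hpl


/-- layer cake formula for the fibres -/
lemma vol_layer {n : ℕ} {K : Set (ℝ × (Fin n → ℝ))} (mK : MeasurableSet K) :
    volume K = 2 * ∫⁻ t in Ioi (0 : ℝ), volume (sup K t) := by
  have hm := measurable_fib mK
  set S : Set (ℝ × (Fin n → ℝ)) := {z | 0 < z.1 ∧ ENNReal.ofReal (2 * z.1) ≤ fib K z.2} with hS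
  have mS : MeasurableSet S := by
    refine (measurableSet_lt measurable_const measurable_fst).inter ?_
    exact measurableSet_le ((measurable_const.mul measurable_fst).ennreal_ofReal)
      (hm.comp measurable_snd)
  have h1 : volume S = ∫⁻ t in Ioi (0 : ℝ), volume (sup K t) := by
    rw [Measure.volume_eq_prod, Measure.prod_apply mS, ← lintegral_indicator measurableSet_Ioi]
    refine lintegral_congr fun t => ?_
    by_cases ht : t ∈ Ioi (0 : ℝ)
    · rw [Set.indicator_of_mem ht]
      congr 1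
      ext x
      simp only [hS, mem_preimage, mem_ofPred_eq, sup]
      exact ⟨fun h => h.2, fun h => ⟨ht, h⟩⟩
    · rw [Set.indicator_of_notMem ht]
      have : Prod.mk t ⁻¹' S = ∅ := by
        ext x
        simp only [hS, mem_preimage, mem_ofPred_eq, mem_empty_iff_false, iff_false, not_and]
        intro h; exact absurd h ht
      rw [this, measure_empty]
  have h2 : 2 * volume S = volume K := by
    rw [Measure.volume_eq_prod, Measure.prod_apply_symm mS, Measure.prod_apply_symm mK,
      ← lintegral_const_mul' _ _ (by norm_num)]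
    refine lintegral_congr fun x => ?_
    show 2 * volume ((fun t => (t, x)) ⁻¹' S) = fib K x
    by_cases htop : fib K x = ∞
    · have : (fun t => (t, x)) ⁻¹' S = Ioi (0 : ℝ) := by
        ext t
        simp [hS, htop]
      rw [this, htop, Real.volume_Ioi]
      exact ENNReal.mul_top (by norm_num)
    · have : (fun t => (t, x)) ⁻¹' S = Ioc (0 : ℝ) ((fib K x).toReal / 2) := by
        ext t
        simp only [hS, mem_preimage, mem_ofPred_eq, mem_Ioc]
        refine and_congr_right fun ht => ?_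
        rw [ENNReal.ofReal_le_iff_le_toReal htop]
        constructor <;> intro h <;> linarith
      rw [this, Real.volume_Ioc, sub_zero, ← ENNReal.ofReal_ofNat, ← ENNReal.ofReal_mul (by norm_num),
        mul_div_cancel₀ _ (by norm_num : (2:ℝ) ≠ 0), ENNReal.ofReal_toReal htop]
  rw [← h2, h1]

/-- the volume through the sections at positive height -/
lemma vol_sections {n : ℕ} {L : Set (ℝ × (Fin n → ℝ))} (mL : MeasurableSet L)
    (sL : ∀ z ∈ L, -z ∈ L) :
    volume L ≤ 2 * ∫⁻ s in Ioi (0 : ℝ), volume {y | (s, y) ∈ L} := by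
  set P : Set (ℝ × (Fin n → ℝ)) := {z | 0 < z.1} with hP
  set N : Set (ℝ × (Fin n → ℝ)) := {z | z.1 < 0} with hN
  set Z : Set (ℝ × (Fin n → ℝ)) := {z | z.1 = 0} with hZ
  have mP : MeasurableSet P := measurableSet_lt measurable_const measurable_fst
  have h0 : volume Z = 0 := by
    have : Z = ({0} : Set ℝ) ×ˢ (univ : Set (Fin n → ℝ)) := by
      ext z; simp [hZ]
    rw [this, Measure.volume_eq_prod, Measure.prod_prod]
    simp
  have h1 : volume (L ∩ N) = volume (L ∩ P) := by
    have : L ∩ N = (fun z => -z) ⁻¹' (L ∩ P) := by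
      ext z
      simp only [hN, hP, mem_inter_iff, mem_preimage, mem_ofPred_eq, Prod.fst_neg]
      constructor
      · rintro ⟨h1, h2⟩; exact ⟨sL _ h1, by linarith⟩
      · rintro ⟨h1, h2⟩; exact ⟨by simpa using sL _ h1, by linarith⟩
    rw [this]
    have hmp : MeasurePreserving (fun z : ℝ × (Fin n → ℝ) => -z) volume volume := by
      have h3 := (Measure.measurePreserving_neg (volume : Measure ℝ)).prod
        (Measure.measurePreserving_neg (volume : Measure (Fin n → ℝ)))
      exact h3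
    exact hmp.measure_preimage (mL.inter mP).nullMeasurableSet
  have h2 : volume L ≤ 2 * volume (L ∩ P) := by
    have hcov : L ⊆ (L ∩ P) ∪ (L ∩ N) ∪ Z := by
      intro z hz
      rcases lt_trichotomy z.1 0 with h | h | h
      · left; right; exact ⟨hz, h⟩
      · right; exact h
      · left; left; exact ⟨hz, h⟩
    calc volume L ≤ volume ((L ∩ P) ∪ (L ∩ N) ∪ Z) := measure_mono hcov
      _ ≤ volume ((L ∩ P) ∪ (L ∩ N)) + volume Z := measure_union_le _ _
      _ ≤ volume (L ∩ P) + volume (L ∩ N) + 0 := by rw [h0]; gcongr; exact measure_union_le _ _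
      _ = 2 * volume (L ∩ P) := by rw [h1, add_zero, two_mul]
  refine h2.trans ?_
  gcongr
  rw [Measure.volume_eq_prod, Measure.prod_apply (mL.inter mP),
    ← lintegral_indicator measurableSet_Ioi]
  refine lintegral_mono fun s => ?_
  by_cases hs : s ∈ Ioi (0 : ℝ)
  · rw [Set.indicator_of_mem hs]
    exact measure_mono fun y hy => hy.1
  · rw [Set.indicator_of_notMem hs]
    have : Prod.mk s ⁻¹' (L ∩ P) = ∅ := by
      ext y
      simp only [hP, mem_preimage, mem_inter_iff, mem_ofPred_eq, mem_empty_iff_false, iff_false,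
        not_and]
      intro _ h; exact hs h
    rw [this, measure_empty]

/-- the induction step -/
lemma step {n : ℕ} {H : ℝ → ℝ≥0∞} (mH : Measurable H)
    (hH : ∀ s t : ℝ, 0 < s → 0 < t → ∀ A M : Set (Fin n → ℝ), MeasurableSet A → MeasurableSet M →
      (∀ x ∈ A, -x ∈ A) → (∀ y ∈ M, -y ∈ M) → (∀ x ∈ A, ∀ y ∈ M, x ⬝ᵥ y ≤ 1 - s * t) →
      volume A * volume M ≤ H (Real.sqrt (s * t)) ^ 2) :
    VolBound (n + 1) (4 * (∫⁻ r in Ioi (0 : ℝ), H r) ^ 2) := by
  intro K L hKL
  set e := MeasurableEquiv.piFinSuccAbove (fun _ : Fin (n + 1) => ℝ) 0 with he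
  have hmp := (volume_preserving_piFinSuccAbove (fun _ : Fin (n + 1) => ℝ) 0).symm
  set K' : Set (ℝ × (Fin n → ℝ)) := e.symm ⁻¹' K with hK'
  set L' : Set (ℝ × (Fin n → ℝ)) := e.symm ⁻¹' L with hL'
  have vK : volume K' = volume K := hmp.measure_preimage hKL.mK.nullMeasurableSet
  have vL : volume L' = volume L := hmp.measure_preimage hKL.mL.nullMeasurableSet
  have mK' : MeasurableSet K' := e.symm.measurable hKL.mK
  have mL' : MeasurableSet L' := e.symm.measurable hKL.mL
  have hneg : ∀ z : ℝ × (Fin n → ℝ), e.symm (-z) = -e.symm z := by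
    intro z
    ext i
    refine Fin.cases ?_ (fun j => ?_) i
    · simp [he, MeasurableEquiv.piFinSuccAbove]
    · simp [he, MeasurableEquiv.piFinSuccAbove]
  have hdot : ∀ z w : ℝ × (Fin n → ℝ), e.symm z ⬝ᵥ e.symm w = z.1 * w.1 + z.2 ⬝ᵥ w.2 := by
    intro z w
    simp only [dotProduct, Fin.sum_univ_succ]
    simp [he, MeasurableEquiv.piFinSuccAbove]
  have sK' : ∀ z ∈ K', -z ∈ K' := by
    intro z hz
    show e.symm (-z) ∈ K
    rw [hneg]; exact hKL.sK _ hz
  have sL' : ∀ z ∈ L', -z ∈ L' := by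
    intro z hz
    show e.symm (-z) ∈ L
    rw [hneg]; exact hKL.sL _ hz
  have hle : ∀ z ∈ K', ∀ w ∈ L', z.1 * w.1 + z.2 ⬝ᵥ w.2 ≤ 1 := by
    intro z hz w hw
    rw [← hdot]; exact hKL.le _ hz _ hw
  rw [← vK, ← vL, vol_layer mK']
  have msup : ∀ t, MeasurableSet (sup K' t) := fun t =>
    measurableSet_le measurable_const (measurable_fib mK')
  have mf : Measurable (fun t => volume (sup K' t)) := by
    have : MeasurableSet {z : ℝ × (Fin n → ℝ) | ENNReal.ofReal (2 * z.1) ≤ fib K' z.2} :=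
      measurableSet_le ((measurable_const.mul measurable_fst).ennreal_ofReal)
        ((measurable_fib mK').comp measurable_snd)
    exact measurable_measure_prodMk_left this
  have mg : Measurable (fun s => volume {y | (s, y) ∈ L'}) := measurable_measure_prodMk_left mL'
  have hpl := pl_mul (F := fun s => volume {y | (s, y) ∈ L'}) (G := fun t => volume (sup K' t))
    (H := H) mg mf mH (by
      intro s t hs ht
      obtain ⟨M, mM, sM, hvol, hM⟩ := section_bound mL' sK' sL' hle hs ht
      have h1 := hH s t hs ht (sup K' t) M (msup t) mM (by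
        intro x hx
        show ENNReal.ofReal (2 * t) ≤ fib K' (-x)
        rw [fib_neg sK']; exact hx) sM hM
      calc volume {y | (s, y) ∈ L'} * volume (sup K' t) ≤ volume M * volume (sup K' t) := by gcongr
        _ = volume (sup K' t) * volume M := mul_comm _ _
        _ ≤ _ := h1)
  calc 2 * (∫⁻ t in Ioi (0 : ℝ), volume (sup K' t)) * volume L'
      ≤ 2 * (∫⁻ t in Ioi (0 : ℝ), volume (sup K' t)) *
        (2 * ∫⁻ s in Ioi (0 : ℝ), volume {y | (s, y) ∈ L'}) := by
        gcongr
        exact vol_sections mL' sL'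
    _ = 4 * ((∫⁻ s in Ioi (0 : ℝ), volume {y | (s, y) ∈ L'}) *
        (∫⁻ t in Ioi (0 : ℝ), volume (sup K' t))) := by ring
    _ ≤ _ := by gcongr


lemma volume_fin_zero_le (S : Set (Fin 0 → ℝ)) : volume S ≤ 1 := by
  calc volume S ≤ volume (univ : Set (Fin 0 → ℝ)) := measure_mono (subset_univ _)
    _ = 1 := by rw [volume_pi, Measure.pi_of_empty]; simp

lemma volBound_one : VolBound 1 4 := by
  have h := step (n := 0) (H := (Iic (1 : ℝ)).indicator 1)
    (measurable_one.indicator measurableSet_Iic) (by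
      intro s t hs ht A M _ _ _ _ hAM
      by_cases hst : s * t ≤ 1
      · have h1 : Real.sqrt (s * t) ∈ Iic (1 : ℝ) := by
          show Real.sqrt (s * t) ≤ 1
          exact Real.sqrt_le_one.2 hst
        rw [Set.indicator_of_mem h1]
        calc volume A * volume M ≤ 1 * 1 := by
              gcongr
              · exact volume_fin_zero_le _
              · exact volume_fin_zero_le _
          _ = _ := by simp
      · have h2 : A = ∅ ∨ M = ∅ := by
          by_contra hcon
          push Not at hcon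
          obtain ⟨⟨x, hx⟩, ⟨y, hy⟩⟩ := hcon
          have := hAM x hx y hy
          simp [dotProduct] at this
          linarith
        rcases h2 with h2 | h2 <;> simp [h2])
  have h3 : ∫⁻ r in Ioi (0 : ℝ), (Iic (1 : ℝ)).indicator (1 : ℝ → ℝ≥0∞) r = 1 := by
    rw [lintegral_indicator_one measurableSet_Iic, Measure.restrict_apply measurableSet_Iic]
    have : Iic (1 : ℝ) ∩ Ioi 0 = Ioc 0 1 := by
      ext x; simp [and_comm]
    rw [this, Real.volume_Ioc]; simp
  rw [h3] at h
  simpa using h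

lemma volBound_succ {n : ℕ} (hn : 0 < n) {C : ℝ} (hC0 : 0 ≤ C)
    (hC : VolBound n (ENNReal.ofReal C)) :
    VolBound (n + 1) (ENNReal.ofReal (C * (2 * Real.pi / n))) := by
  have hnR : (0 : ℝ) < n := by exact_mod_cast hn
  have h := step (n := n)
    (H := fun r => ENNReal.ofReal (Real.sqrt C * Real.exp (-(n / 2 : ℝ) * r ^ 2)))
    (by fun_prop) (by
      intro s t hs ht A M mA mM sA sM hAM
      have hst : 0 ≤ s * t := by positivity
      have h1 := hC.scaled mA mM sA sM (Real.exp_pos (-(s * t))) (fun x hx y hy =>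
        (hAM x hx y hy).trans (by linarith [Real.add_one_le_exp (-(s * t))]))
      refine h1.trans (le_of_eq ?_)
      rw [← ENNReal.ofReal_mul hC0, ← ENNReal.ofReal_pow (by positivity), mul_pow, Real.sq_sqrt hC0,
        Real.sq_sqrt hst, ← Real.exp_nat_mul, ← Real.exp_nat_mul]
      congr 3
      push_cast
      ring)
  have h2 : ∫⁻ r in Ioi (0 : ℝ), ENNReal.ofReal (Real.sqrt C * Real.exp (-(n / 2 : ℝ) * r ^ 2))
      = ENNReal.ofReal (Real.sqrt C * (Real.sqrt (Real.pi / (n / 2)) / 2)) := by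
    rw [← integral_gaussian_Ioi, ← integral_const_mul, ofReal_integral_eq_lintegral_ofReal]
    · refine Integrable.const_mul ?_ _
      exact (integrable_exp_neg_mul_sq (by positivity : (0 : ℝ) < n / 2)).integrableOn
    · exact Eventually.of_forall fun r => by positivity
  rw [h2, ← ENNReal.ofReal_pow (by positivity)] at h
  have h3 : (4 : ℝ≥0∞) = ENNReal.ofReal 4 := by simp
  rw [h3, ← ENNReal.ofReal_mul (by norm_num)] at h
  have e : C * (2 * Real.pi / n) = 4 * (Real.sqrt C * (Real.sqrt (Real.pi / (n / 2)) / 2)) ^ 2 := by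
    rw [mul_pow, div_pow, Real.sq_sqrt hC0, Real.sq_sqrt (by positivity)]
    field_simp
    ring
  rw [e]
  exact h

/-- a weak (up to polynomial factors) form of the Blaschke–Santaló inequality -/
theorem santalo (n : ℕ) :
    VolBound (n + 1) (ENNReal.ofReal (4 * (2 * Real.pi) ^ n / n.factorial)) := by
  induction n with
  | zero =>
    have := volBound_one
    simpa using this
  | succ n ih =>
    have h := volBound_succ (Nat.succ_pos n) (by positivity) ih
    have e : 4 * (2 * Real.pi) ^ n / n.factorial * (2 * Real.pi / ((n + 1 : ℕ) : ℝ))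
        = 4 * (2 * Real.pi) ^ (n + 1) / (n + 1).factorial := by
      rw [Nat.factorial_succ]
      push_cast
      field_simp
      ring
    rw [← e]
    exact h

end Pool.Agent.H.MP_d7d3dc_an.H98
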