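import Pool.Agent.H.MP_d7d3dc_an.Hilbert
import Pool.Agent.H.MP_d7d3dc_an.h98.Lattice
import Pool.Agent.H.MP_d7d3dc_an.h98.Santalo

set_option autoImplicit false

/-!
The distance of a space of numerical index one to the Euclidean space is of order `√m`.
-/

namespace Pool.Agent.H.MP_d7d3dc_an.H98

open MeasureTheory Set Metric Module
open scoped ENNReal

variable {Y : Type} [NormedAddCommGroup Y] [NormedSpace ℝ Y] [FiniteDimensional ℝ Y]

/-- coordinates of `T u` -/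
noncomputable def pv {m : ℕ} (T : Y ≃L[ℝ] EuclideanSpace ℝ (Fin m)) (u : Y) : Fin m → ℝ :=
  fun i => (T u) i

/-- coordinates of the functional `g ∘ T⁻¹` -/
noncomputable def qv {m : ℕ} (T : Y ≃L[ℝ] EuclideanSpace ℝ (Fin m)) (g : StrongDual ℝ Y) :
    Fin m → ℝ := fun i => g (T.symm (EuclideanSpace.single i 1))

lemma euclid_sum {m : ℕ} (x : EuclideanSpace ℝ (Fin m)) :
    x = ∑ i, x i • EuclideanSpace.single i (1 : ℝ) := by
  ext j
  simp [Finset.sum_apply, Pi.single_apply]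

omit [FiniteDimensional ℝ Y] in
lemma qv_dot {m : ℕ} (T : Y ≃L[ℝ] EuclideanSpace ℝ (Fin m)) (g : StrongDual ℝ Y)
    (x : EuclideanSpace ℝ (Fin m)) : qv T g ⬝ᵥ (fun i => x i) = g (T.symm x) := by
  conv_rhs => rw [euclid_sum x]
  rw [map_sum, map_sum, dotProduct]
  refine Finset.sum_congr rfl fun i _ => ?_
  rw [map_smul, map_smul, smul_eq_mul, qv, mul_comm]

omit [FiniteDimensional ℝ Y] in
lemma qv_pv {m : ℕ} (T : Y ≃L[ℝ] EuclideanSpace ℝ (Fin m)) (g : StrongDual ℝ Y) (u : Y) :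
    qv T g ⬝ᵥ pv T u = g u := by
  have := qv_dot T g (T u)
  rw [ContinuousLinearEquiv.symm_apply_apply] at this
  exact this

lemma self_dot {m : ℕ} (x : EuclideanSpace ℝ (Fin m)) :
    (fun i => x i) ⬝ᵥ (fun i => x i) = ‖x‖ ^ 2 := by
  rw [EuclideanSpace.norm_sq_eq, dotProduct]
  refine Finset.sum_congr rfl fun i _ => ?_
  rw [Real.norm_eq_abs, sq_abs, pow_two]

lemma pv_span {m : ℕ} (T : Y ≃L[ℝ] EuclideanSpace ℝ (Fin m)) :
    Submodule.span ℝ (Set.range fun u : (closedBall (0 : Y) 1).extremePoints ℝ =>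
      pv T (u : Y)) = ⊤ := by
  set Φ : Y →ₗ[ℝ] (Fin m → ℝ) :=
    { toFun := pv T
      map_add' := fun u v => by ext i; simp [pv]
      map_smul' := fun c u => by ext i; simp [pv] } with hΦ
  have h1 : (Set.range fun u : (closedBall (0 : Y) 1).extremePoints ℝ => pv T (u : Y))
      = Φ '' ((closedBall (0 : Y) 1).extremePoints ℝ) := by
    ext x; simp [hΦ]
  rw [h1, Submodule.span_image, span_extreme, Submodule.map_top, LinearMap.range_eq_top]
  intro x
  refine ⟨T.symm (WithLp.toLp 2 x), ?_⟩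
  ext i
  simp [hΦ, pv]

lemma qv_span {m : ℕ} (T : Y ≃L[ℝ] EuclideanSpace ℝ (Fin m)) :
    Submodule.span ℝ (Set.range fun g : (closedBall (0 : StrongDual ℝ Y) 1).extremePoints ℝ =>
      qv T (g : StrongDual ℝ Y)) = ⊤ := by
  set Φ : StrongDual ℝ Y →ₗ[ℝ] (Fin m → ℝ) :=
    { toFun := qv T
      map_add' := fun u v => by ext i; simp [qv]
      map_smul' := fun c u => by ext i; simp [qv] } with hΦ
  have h1 : (Set.range fun g : (closedBall (0 : StrongDual ℝ Y) 1).extremePoints ℝ =>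
      qv T (g : StrongDual ℝ Y)) = Φ '' ((closedBall (0 : StrongDual ℝ Y) 1).extremePoints ℝ) := by
    ext x; simp [hΦ]
  rw [h1, Submodule.span_image, span_extreme (X := StrongDual ℝ Y), Submodule.map_top,
    LinearMap.range_eq_top]
  intro x
  refine ⟨(innerSL ℝ (WithLp.toLp 2 x : EuclideanSpace ℝ (Fin m))).comp
    (T : Y →L[ℝ] EuclideanSpace ℝ (Fin m)), ?_⟩
  ext i
  simp [hΦ, qv, EuclideanSpace.inner_single_right]

/-- The main inequality. -/
theorem main_ineq (h : numIndex Y = 1) {n : ℕ} (hm : finrank ℝ Y = n + 1)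
    (T : Y ≃L[ℝ] EuclideanSpace ℝ (Fin (n + 1))) :
    (4 / Real.pi) ^ n * n.factorial ≤ (‖(T : Y →L[ℝ] EuclideanSpace ℝ (Fin (n + 1)))‖ *
      ‖(T.symm : EuclideanSpace ℝ (Fin (n + 1)) →L[ℝ] Y)‖) ^ (2 * (n + 1)) := by
  have hYnt : Nontrivial Y := by
    rw [← finrank_pos_iff (R := ℝ), hm]; exact Nat.succ_pos n
  set a : ℝ := ‖(T : Y →L[ℝ] EuclideanSpace ℝ (Fin (n + 1)))‖ with ha
  set b : ℝ := ‖(T.symm : EuclideanSpace ℝ (Fin (n + 1)) →L[ℝ] Y)‖ with hb
  have ha0 : 0 ≤ a := norm_nonneg _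
  have hb0 : 0 ≤ b := norm_nonneg _
  have hab1 : 1 ≤ a * b := by
    have h1 : (1 : ℝ) = ‖ContinuousLinearMap.id ℝ Y‖ := ContinuousLinearMap.norm_id.symm
    have h2 : ContinuousLinearMap.id ℝ Y =
      (T.symm : EuclideanSpace ℝ (Fin (n + 1)) →L[ℝ] Y).comp
        (T : Y →L[ℝ] EuclideanSpace ℝ (Fin (n + 1))) := by
      ext v; simp
    rw [h1, h2, mul_comm]
    exact ContinuousLinearMap.opNorm_comp_le _ _
  have hpp : ∀ u : (closedBall (0 : Y) 1).extremePoints ℝ,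
      pv T (u : Y) ⬝ᵥ pv T (u : Y) ≤ a ^ 2 := by
    intro u
    have h1 : ‖(u : Y)‖ ≤ 1 := by simpa using u.2.1
    have h2 : pv T (u : Y) ⬝ᵥ pv T (u : Y) = ‖T (u : Y)‖ ^ 2 := self_dot _
    rw [h2]
    have h3 : ‖T (u : Y)‖ ≤ a := by
      calc ‖T (u : Y)‖ ≤ a * ‖(u : Y)‖ :=
            (T : Y →L[ℝ] EuclideanSpace ℝ (Fin (n + 1))).le_opNorm u
        _ ≤ a * 1 := by gcongr
        _ = a := mul_one a
    gcongr
  have hqq : ∀ g : (closedBall (0 : StrongDual ℝ Y) 1).extremePoints ℝ,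
      qv T (g : StrongDual ℝ Y) ⬝ᵥ qv T (g : StrongDual ℝ Y) ≤ b ^ 2 := by
    intro g
    have h1 : ‖(g : StrongDual ℝ Y)‖ ≤ 1 := by simpa using g.2.1
    set x : EuclideanSpace ℝ (Fin (n + 1)) := WithLp.toLp 2 (qv T (g : StrongDual ℝ Y)) with hx
    have h2 : qv T (g : StrongDual ℝ Y) ⬝ᵥ qv T (g : StrongDual ℝ Y) = ‖x‖ ^ 2 := self_dot x
    have h3 : ‖x‖ ^ 2 = (g : StrongDual ℝ Y) (T.symm x) := by
      rw [← h2]; exact qv_dot T g x
    have h4 : ‖x‖ ^ 2 ≤ b * ‖x‖ := by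
      rw [h3]
      calc (g : StrongDual ℝ Y) (T.symm x) ≤ ‖(g : StrongDual ℝ Y) (T.symm x)‖ := le_abs_self _
        _ ≤ ‖(g : StrongDual ℝ Y)‖ * ‖T.symm x‖ := ContinuousLinearMap.le_opNorm _ _
        _ ≤ 1 * (b * ‖x‖) := by
          gcongr
          exact (T.symm : EuclideanSpace ℝ (Fin (n + 1)) →L[ℝ] Y).le_opNorm x
        _ = b * ‖x‖ := one_mul _
    have h5 : ‖x‖ ≤ b := by
      by_contra hcon
      push Not at hcon
      have : 0 < ‖x‖ := lt_of_le_of_lt hb0 hcon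
      nlinarith
    rw [h2]
    gcongr
  have hpm : ∀ (g : (closedBall (0 : StrongDual ℝ Y) 1).extremePoints ℝ)
      (u : (closedBall (0 : Y) 1).extremePoints ℝ),
      qv T (g : StrongDual ℝ Y) ⬝ᵥ pv T (u : Y) = 1 ∨
      qv T (g : StrongDual ℝ Y) ⬝ᵥ pv T (u : Y) = -1 := by
    intro g u
    rw [qv_pv]
    exact eq_or_eq_neg_of_abs_eq (abs_eq_one_of_extreme h u.2 g.2)
  have hne : Nonempty ((closedBall (0 : StrongDual ℝ Y) 1).extremePoints ℝ) :=
    (extreme_nonempty (X := StrongDual ℝ Y)).to_subtype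
  have hlat := lattice_bound (pv_span T) (qv_span T) hpm hpp hqq
  set K₁ : Set (Fin (n + 1) → ℝ) := {x | ∀ u : (closedBall (0 : Y) 1).extremePoints ℝ,
    |x ⬝ᵥ pv T (u : Y)| ≤ a ^ 2 / 2} with hK₁
  set K₂ : Set (Fin (n + 1) → ℝ) :=
    {x | ∀ g : (closedBall (0 : StrongDual ℝ Y) 1).extremePoints ℝ,
      |x ⬝ᵥ qv T (g : StrongDual ℝ Y)| ≤ b ^ 2 / 2} with hK₂
  have mK₁ : MeasurableSet K₁ := by
    have : K₁ = ⋂ u : (closedBall (0 : Y) 1).extremePoints ℝ,
        {x | |x ⬝ᵥ pv T (u : Y)| ≤ a ^ 2 / 2} := by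
      ext x; simp [hK₁]
    rw [this]
    refine (isClosed_iInter fun u => isClosed_le ?_ continuous_const).measurableSet
    exact (Continuous.dotProduct continuous_id continuous_const).abs
  have mK₂ : MeasurableSet K₂ := by
    have : K₂ = ⋂ g : (closedBall (0 : StrongDual ℝ Y) 1).extremePoints ℝ,
        {x | |x ⬝ᵥ qv T (g : StrongDual ℝ Y)| ≤ b ^ 2 / 2} := by
      ext x; simp [hK₂]
    rw [this]
    refine (isClosed_iInter fun u => isClosed_le ?_ continuous_const).measurableSet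
    exact (Continuous.dotProduct continuous_id continuous_const).abs
  have sK₁ : ∀ x ∈ K₁, -x ∈ K₁ := by
    intro x hx u
    rw [neg_dotProduct, abs_neg]; exact hx u
  have sK₂ : ∀ x ∈ K₂, -x ∈ K₂ := by
    intro x hx u
    rw [neg_dotProduct, abs_neg]; exact hx u
  have hdual : ∀ x ∈ K₁, ∀ y ∈ K₂, x ⬝ᵥ y ≤ (a * b) ^ 2 / 4 := by
    intro x hx y hy
    set ey : EuclideanSpace ℝ (Fin (n + 1)) := WithLp.toLp 2 y with hey
    set ex : EuclideanSpace ℝ (Fin (n + 1)) := WithLp.toLp 2 x with hex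
    set z : Y := T.symm ey with hz
    have hzn : ‖z‖ ≤ b ^ 2 / 2 := by
      apply norm_le_of_extreme_dual
      intro g hg
      have h1 := hy ⟨g, hg⟩
      have h2 : qv T g ⬝ᵥ y = g z := qv_dot T g ey
      rw [dotProduct_comm, h2] at h1
      exact (le_abs_self _).trans h1
    set ℓ : StrongDual ℝ Y := (innerSL ℝ ex).comp
      (T : Y →L[ℝ] EuclideanSpace ℝ (Fin (n + 1))) with hℓ
    have hℓu : ∀ u : Y, ℓ u = x ⬝ᵥ pv T u := by
      intro u
      simp only [hℓ, ContinuousLinearMap.comp_apply, innerSL_apply_apply, PiLp.inner_apply, dotProduct]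
      refine Finset.sum_congr rfl fun i _ => ?_
      simp [hex, pv, mul_comm]
    have h7 : ℓ z ≤ (a ^ 2 / 2) * ‖z‖ := by
      apply le_mul_norm_of_extreme
      intro u hu
      rw [hℓu]
      exact (le_abs_self _).trans (hx ⟨u, hu⟩)
    have h8 : ℓ z = x ⬝ᵥ y := by
      rw [hℓu]
      congr 1
      ext i
      simp [pv, hz, hey]
    rw [← h8]
    calc ℓ z ≤ (a ^ 2 / 2) * ‖z‖ := h7
      _ ≤ (a ^ 2 / 2) * (b ^ 2 / 2) := by gcongr
      _ = (a * b) ^ 2 / 4 := by ring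
  have hs := (santalo n).scaled mK₁ mK₂ sK₁ sK₂ (ρ := (a * b) ^ 2 / 4) (by positivity) hdual
  have hfin : (2 : ℝ≥0∞) ^ (n + 1) ≤ 2 * (ENNReal.ofReal (4 * (2 * Real.pi) ^ n / n.factorial) *
      ENNReal.ofReal (((a * b) ^ 2 / 4) ^ (n + 1))) := by
    refine hlat.trans ?_
    gcongr
  have h2 : (2 : ℝ≥0∞) = ENNReal.ofReal 2 := by simp
  rw [h2, ← ENNReal.ofReal_mul (by positivity), ← ENNReal.ofReal_mul (by positivity),
    ← ENNReal.ofReal_pow (by norm_num), ENNReal.ofReal_le_ofReal_iff (by positivity)] at hfin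
  have hfac : (0 : ℝ) < n.factorial := by positivity
  have hpi := Real.pi_pos
  have e1 : 2 * (4 * (2 * Real.pi) ^ n / n.factorial * ((a * b) ^ 2 / 4) ^ (n + 1))
      = 2 ^ (n + 1) * ((a * b) ^ (2 * (n + 1)) / ((4 / Real.pi) ^ n * n.factorial)) := by
    have e2 : ((4 : ℝ)) ^ (n + 1) = 2 ^ (n + 1) * 2 ^ (n + 1) := by
      rw [← mul_pow]; norm_num
    have e3 : ((4 : ℝ)) ^ n = 2 ^ n * 2 ^ n := by
      rw [← mul_pow]; norm_num
    rw [div_pow, div_pow, mul_pow 2 Real.pi n, ← pow_mul (a * b) 2 (n + 1), e2, e3]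
    field_simp
    ring
  rw [e1] at hfin
  have h3 : (1 : ℝ) ≤ (a * b) ^ (2 * (n + 1)) / ((4 / Real.pi) ^ n * n.factorial) := by
    have h4 : (0 : ℝ) < 2 ^ (n + 1) := by positivity
    by_contra hcon
    push Not at hcon
    have := mul_lt_mul_of_pos_left hcon h4
    linarith
  rwa [one_le_div (by positivity)] at h3


lemma pi_div {n : ℕ} : (4 / (3.1416 : ℝ)) ^ n ≤ (4 / Real.pi) ^ n := by
  have := Real.pi_lt_d4
  have h0 := Real.pi_pos
  gcongr

lemma exp_bound : Real.exp (1.05 : ℝ) ≤ 9 / Real.pi := by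
  have h1 : Real.exp (1.05 : ℝ) = Real.exp 1 * Real.exp 0.05 := by
    rw [← Real.exp_add]; norm_num
  have h2 : Real.exp 0.05 ≤ 1 / (1 - 0.05) :=
    Real.exp_bound_div_one_sub_of_interval (by norm_num) (by norm_num)
  have h3 := Real.exp_one_lt_d9
  have h4 : Real.exp (1.05 : ℝ) ≤ 2.7182818286 * (1 / (1 - 0.05)) := by
    rw [h1]
    have := Real.exp_pos (0.05 : ℝ)
    gcongr
  refine h4.trans ?_
  rw [le_div_iff₀ Real.pi_pos]
  have := Real.pi_lt_d4
  norm_num at *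
  linarith

lemma num_ineq (n : ℕ) : (4 * ((n : ℝ) + 1) / 9) ^ (n + 1) ≤ (4 / Real.pi) ^ n * n.factorial := by
  rcases Nat.lt_or_ge n 20 with hn | hn
  · have h := mul_le_mul_of_nonneg_right (pi_div (n := n)) (Nat.cast_nonneg (α := ℝ) n.factorial)
    refine le_trans ?_ h
    interval_cases n <;> norm_num [Nat.factorial]
  · induction n, hn using Nat.le_induction with
    | base =>
      have h := mul_le_mul_of_nonneg_right (pi_div (n := 20)) (Nat.cast_nonneg (α := ℝ)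
        (Nat.factorial 20))
      refine le_trans ?_ h
      norm_num [Nat.factorial]
    | succ n hn ih =>
      have hnR : (20 : ℝ) ≤ n := by exact_mod_cast hn
      have hpi := Real.pi_pos
      have h1 : (((n : ℝ) + 2) / (n + 1)) ^ (n + 2) ≤ 9 / Real.pi := by
        have h2 : ((n : ℝ) + 2) / (n + 1) ≤ Real.exp (1 / ((n : ℝ) + 1)) := by
          have := Real.add_one_le_exp (1 / ((n : ℝ) + 1))
          calc ((n : ℝ) + 2) / (n + 1) = 1 / ((n : ℝ) + 1) + 1 := by field_simp; ring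
            _ ≤ _ := this
        calc (((n : ℝ) + 2) / (n + 1)) ^ (n + 2) ≤ Real.exp (1 / ((n : ℝ) + 1)) ^ (n + 2) := by
              gcongr
          _ = Real.exp (((n : ℝ) + 2) / (n + 1)) := by
              rw [← Real.exp_nat_mul]
              congr 1
              push_cast
              field_simp
          _ ≤ Real.exp 1.05 := by
              apply Real.exp_le_exp.2
              rw [div_le_iff₀ (by linarith)]
              linarith
          _ ≤ _ := exp_bound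
      have h3 : (4 * ((n : ℝ) + 1 + 1) / 9) ^ (n + 1 + 1)
          = (((n : ℝ) + 2) / (n + 1)) ^ (n + 2) * (4 * ((n : ℝ) + 1) / 9) ^ (n + 2) := by
        rw [← mul_pow]
        congr 1
        field_simp
        ring
      push_cast
      rw [h3]
      calc (((n : ℝ) + 2) / (n + 1)) ^ (n + 2) * (4 * ((n : ℝ) + 1) / 9) ^ (n + 2)
          ≤ (9 / Real.pi) * (4 * ((n : ℝ) + 1) / 9) ^ (n + 2) := by gcongr
        _ = (4 / Real.pi) * (n + 1) * (4 * ((n : ℝ) + 1) / 9) ^ (n + 1) := by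
            rw [pow_succ _ (n + 1)]
            field_simp
        _ ≤ (4 / Real.pi) * (n + 1) * ((4 / Real.pi) ^ n * n.factorial) := by gcongr
        _ = (4 / Real.pi) ^ (n + 1) * (n + 1).factorial := by
            rw [Nat.factorial_succ]
            push_cast
            ring

/-- The distance bound for an isomorphism. -/
theorem dist_bound (h : numIndex Y = 1) {m : ℕ} (hm0 : 0 < m) (hm : finrank ℝ Y = m)
    (T : Y ≃L[ℝ] EuclideanSpace ℝ (Fin m)) :
    2 / 3 * Real.sqrt m ≤ ‖(T : Y →L[ℝ] EuclideanSpace ℝ (Fin m))‖ *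
      ‖(T.symm : EuclideanSpace ℝ (Fin m) →L[ℝ] Y)‖ := by
  obtain ⟨n, rfl⟩ : ∃ n, m = n + 1 := ⟨m - 1, by omega⟩
  set δ : ℝ := ‖(T : Y →L[ℝ] EuclideanSpace ℝ (Fin (n + 1)))‖ *
      ‖(T.symm : EuclideanSpace ℝ (Fin (n + 1)) →L[ℝ] Y)‖ with hδ
  have hδ0 : 0 ≤ δ := by positivity
  have h1 := (num_ineq n).trans (main_ineq h hm T)
  rw [← hδ, pow_mul] at h1
  have h2 : 4 * ((n : ℝ) + 1) / 9 ≤ δ ^ 2 :=
    le_of_pow_le_pow_left₀ (Nat.succ_ne_zero n) (by positivity) h1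
  have h3 : (2 / 3 * Real.sqrt ((n + 1 : ℕ) : ℝ)) ^ 2 ≤ δ ^ 2 := by
    rw [mul_pow, Real.sq_sqrt (by positivity)]
    push_cast
    linarith
  exact le_of_pow_le_pow_left₀ two_ne_zero hδ0 h3

/-- **Distance of a space of numerical index one to the Euclidean space.** -/
theorem hilbert_sqrt {m : ℕ} (hm : 0 < m) (Y : NSpace m) (hY : numIndex Y.carrier = 1) :
    ENNReal.ofReal (2 / 3 * Real.sqrt m) ≤ bmDist Y.carrier (EuclideanSpace ℝ (Fin m)) :=
  le_iInf fun T => ENNReal.ofReal_le_ofReal (dist_bound hY hm Y.finrank_eq T)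

theorem inf_sqrt {m : ℕ} (hm : 0 < m) :
    ENNReal.ofReal (2 / 3 * Real.sqrt m) ≤ ⨅ Y : NSpace m, ⨅ _ : numIndex Y.carrier = 1,
      bmDist (EuclideanSpace ℝ (Fin m)) Y.carrier := by
  refine le_iInf fun Y => le_iInf fun hY => le_iInf fun T => ?_
  have := dist_bound hY hm Y.finrank_eq T.symm
  exact ENNReal.ofReal_le_ofReal (this.trans (le_of_eq (mul_comm _ _)))

theorem inf_le_maxDist {m : ℕ} :
    (⨅ Y : NSpace m, ⨅ _ : numIndex Y.carrier = 1,
      bmDist (EuclideanSpace ℝ (Fin m)) Y.carrier) ≤ maxDist m :=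
  le_iSup (fun X : NSpace m => ⨅ Y : NSpace m, ⨅ _ : numIndex Y.carrier = 1,
    bmDist X.carrier Y.carrier) ⟨EuclideanSpace ℝ (Fin m), by simp⟩

end Pool.Agent.H.MP_d7d3dc_an.H98
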