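import Mathlib

set_option autoImplicit false

/-!
The one-dimensional Brunn–Minkowski inequality and the Prékopa–Leindler inequality
(copy of Pool.Agent.H.MP_1c6531_pr.PL, by another agent of this team).
-/

namespace Pool.Agent.H.MP_d7d3dc_an.PL98

open MeasureTheory Set Filter
open scoped ENNReal Pointwise

/-- one-dimensional Brunn–Minkowski, compact sets -/
lemma bm_compact {K L : Set ℝ} (hK : IsCompact K) (hL : IsCompact L) (hKne : K.Nonempty)
    (hLne : L.Nonempty) : volume K + volume L ≤ volume (K + L) := by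
  set a := sSup K
  set b := sInf L
  have ha : a ∈ K := hK.sSup_mem hKne
  have hb : b ∈ L := hL.sInf_mem hLne
  have hKa : ∀ x ∈ K, x ≤ a := fun x hx => le_csSup hK.bddAbove hx
  have hLb : ∀ x ∈ L, b ≤ x := fun x hx => csInf_le hL.bddBelow hx
  set K' : Set ℝ := (fun x => x + b) '' K with hK'
  set L' : Set ℝ := (fun x => a + x) '' L with hL'
  have hK'c : IsCompact K' := hK.image (by fun_prop)
  have hL'c : IsCompact L' := hL.image (by fun_prop)
  have hvK : volume K' = volume K := by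
    rw [hK']
    exact measure_preimage_add_right volume (-b) K ▸ by
      congr 1
      ext x
      simp only [mem_image, mem_preimage]
      constructor
      · rintro ⟨y, hy, rfl⟩; simpa using hy
      · intro h; exact ⟨x + -b, h, by ring⟩
  have hvL : volume L' = volume L := by
    rw [hL']
    exact measure_preimage_add volume (-a) L ▸ by
      congr 1
      ext x
      simp only [mem_image, mem_preimage]
      constructor
      · rintro ⟨y, hy, rfl⟩; simpa using hy
      · intro h; exact ⟨-a + x, h, by ring⟩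
  have hint : K' ∩ L' ⊆ {a + b} := by
    rintro x ⟨⟨y, hy, rfl⟩, ⟨z, hz, hzy⟩⟩
    have h1 := hKa y hy
    have h2 := hLb z hz
    simp only at hzy
    rw [mem_singleton_iff]
    simp only
    linarith
  have hint0 : volume (K' ∩ L') = 0 := measure_mono_null hint (by simp)
  have hsub : K' ∪ L' ⊆ K + L := by
    rintro x (⟨y, hy, rfl⟩ | ⟨y, hy, rfl⟩)
    · exact add_mem_add hy hb
    · exact add_mem_add ha hy
  calc volume K + volume L = volume K' + volume L' := by rw [hvK, hvL]
    _ = volume (K' ∪ L') + volume (K' ∩ L') := (measure_union_add_inter _ hL'c.measurableSet).symm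
    _ = volume (K' ∪ L') := by rw [hint0, add_zero]
    _ ≤ volume (K + L) := measure_mono hsub

/-- one-dimensional Brunn–Minkowski with weights -/
lemma bm_one {A B C : Set ℝ} (hA : MeasurableSet A) (hB : MeasurableSet B) (hAne : A.Nonempty)
    (hBne : B.Nonempty) {a b : ℝ} (ha : 0 < a) (hb : 0 < b)
    (h : ∀ x ∈ A, ∀ y ∈ B, a * x + b * y ∈ C) :
    ENNReal.ofReal a * volume A + ENNReal.ofReal b * volume B ≤ volume C := by
  have hsm : ∀ (c : ℝ) (S : Set ℝ), 0 < c → volume (c • S) = ENNReal.ofReal c * volume S := by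
    intro c S hc
    rw [Measure.addHaar_smul]
    simp [abs_of_pos hc]
  have key : ∀ K L : Set ℝ, IsCompact K → IsCompact L → K.Nonempty → L.Nonempty → K ⊆ A → L ⊆ B →
      ENNReal.ofReal a * volume K + ENNReal.ofReal b * volume L ≤ volume C := by
    intro K L hK hL hKne hLne hKA hLB
    rw [← hsm a K ha, ← hsm b L hb]
    refine (bm_compact (hK.smul a) (hL.smul b) hKne.smul_set hLne.smul_set).trans ?_
    refine measure_mono ?_
    rintro x ⟨y, ⟨u, hu, rfl⟩, z, ⟨v, hv, rfl⟩, rfl⟩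
    exact h u (hKA hu) v (hLB hv)
  obtain ⟨x0, hx0⟩ := hAne
  obtain ⟨y0, hy0⟩ := hBne
  -- compact inner approximation
  have apx : ∀ (S : Set ℝ) (z : ℝ), MeasurableSet S → z ∈ S → ∀ (c : ℝ), 0 < c → ∀ r : ℝ≥0∞,
      r < ENNReal.ofReal c * volume S → ∃ K, IsCompact K ∧ K.Nonempty ∧ K ⊆ S ∧
      r < ENNReal.ofReal c * volume K := by
    intro S z hS hz c hc r hr
    have hc0 : ENNReal.ofReal c ≠ 0 := by simpa using hc
    have h1 : r / ENNReal.ofReal c < volume S := by
      rw [ENNReal.div_lt_iff (Or.inl hc0) (Or.inl ENNReal.ofReal_ne_top), mul_comm]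
      exact hr
    obtain ⟨K, hKS, hK, hrK⟩ := hS.exists_lt_isCompact h1
    refine ⟨insert z K, hK.insert z, ⟨z, mem_insert _ _⟩, insert_subset hz hKS, ?_⟩
    rw [ENNReal.div_lt_iff (Or.inl hc0) (Or.inl ENNReal.ofReal_ne_top), mul_comm] at hrK
    refine hrK.trans_le ?_
    gcongr
    exact subset_insert z K
  by_contra hcon
  push Not at hcon
  by_cases h1 : ENNReal.ofReal a * volume A = 0
  · rw [h1, zero_add] at hcon
    obtain ⟨L, hL, hLne, hLB, hrL⟩ := apx B y0 hB hy0 b hb _ hcon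
    have := key {x0} L isCompact_singleton hL (singleton_nonempty _) hLne
      (singleton_subset_iff.2 hx0) hLB
    have h2 : ENNReal.ofReal b * volume L ≤ volume C := le_trans le_add_self this
    exact absurd hrL (not_lt.2 h2)
  · by_cases h2 : ENNReal.ofReal b * volume B = 0
    · rw [h2, add_zero] at hcon
      obtain ⟨K, hK, hKne, hKA, hrK⟩ := apx A x0 hA hx0 a ha _ hcon
      have := key K {y0} hK isCompact_singleton hKne (singleton_nonempty _) hKA
        (singleton_subset_iff.2 hy0)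
      have h3 : ENNReal.ofReal a * volume K ≤ volume C := le_trans le_self_add this
      exact absurd hrK (not_lt.2 h3)
    · obtain ⟨y', hy', z', hz', hlt⟩ := ENNReal.exists_lt_add_of_lt_add hcon h1 h2
      obtain ⟨K, hK, hKne, hKA, hrK⟩ := apx A x0 hA hx0 a ha _ hy'
      obtain ⟨L, hL, hLne, hLB, hrL⟩ := apx B y0 hB hy0 b hb _ hz'
      have := key K L hK hL hKne hLne hKA hLB
      have h3 : volume C < volume C := by
        calc volume C < y' + z' := hlt
          _ ≤ ENNReal.ofReal a * volume K + ENNReal.ofReal b * volume L := add_le_add hrK.le hrL.le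
          _ ≤ volume C := this
      exact lt_irrefl _ h3

/-- layer cake for functions bounded by one -/
lemma layer_one {f : ℝ → ℝ} (hf : Measurable f) (h0 : ∀ x, 0 ≤ f x) (h1 : ∀ x, f x ≤ 1) :
    ∫⁻ x, ENNReal.ofReal (f x) = ∫⁻ t in Ioo (0:ℝ) 1, volume {x | t < f x} := by
  rw [lintegral_eq_lintegral_meas_lt volume (Eventually.of_forall h0) hf.aemeasurable]
  rw [← lintegral_indicator measurableSet_Ioi, ← lintegral_indicator measurableSet_Ioo]
  congr 1
  ext t
  by_cases ht : t ∈ Ioo (0:ℝ) 1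
  · rw [indicator_of_mem (mem_Ioi.2 ht.1), indicator_of_mem ht]
  · rw [indicator_of_notMem ht]
    by_cases ht0 : t ∈ Ioi (0:ℝ)
    · rw [indicator_of_mem ht0]
      have ht1 : 1 ≤ t := by
        by_contra hc
        push Not at hc
        exact ht ⟨ht0, hc⟩
      have : {x | t < f x} = ∅ := by
        ext x
        simp only [mem_ofPred_eq, mem_empty_iff_false, iff_false, not_lt]
        exact (h1 x).trans ht1
      rw [this, measure_empty]
    · rw [indicator_of_notMem ht0]

/-- normalised one-dimensional Prékopa–Leindler -/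
lemma pl_norm {F G H : ℝ → ℝ} (hF : Measurable F) (hG : Measurable G) (hH : Measurable H)
    (hF0 : ∀ x, 0 ≤ F x) (hF1 : ∀ x, F x ≤ 1) (hG0 : ∀ x, 0 ≤ G x) (hG1 : ∀ x, G x ≤ 1)
    (hH0 : ∀ x, 0 ≤ H x) (hH1 : ∀ x, H x ≤ 1)
    (hFs : ∀ t : ℝ, t < 1 → ∃ x, t < F x) (hGs : ∀ t : ℝ, t < 1 → ∃ x, t < G x)
    {a b : ℝ} (ha : 0 < a) (hb : 0 < b)
    (h : ∀ x y t : ℝ, 0 ≤ t → t < F x → t < G y → t < H (a * x + b * y)) :
    ENNReal.ofReal a * (∫⁻ x, ENNReal.ofReal (F x)) + ENNReal.ofReal b * (∫⁻ x, ENNReal.ofReal (G x))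
      ≤ ∫⁻ x, ENNReal.ofReal (H x) := by
  rw [layer_one hF hF0 hF1, layer_one hG hG0 hG1, layer_one hH hH0 hH1]
  have mF : Measurable (fun t : ℝ => volume {x | t < F x}) :=
    (Antitone.measurable (fun s t hst => measure_mono (fun x (hx : t < F x) => lt_of_le_of_lt hst hx)))
  have mG : Measurable (fun t : ℝ => volume {x | t < G x}) :=
    (Antitone.measurable (fun s t hst => measure_mono (fun x (hx : t < G x) => lt_of_le_of_lt hst hx)))
  rw [← lintegral_const_mul _ mF, ← lintegral_const_mul _ mG,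
    ← lintegral_add_left (mF.const_mul _)]
  refine setLIntegral_mono' measurableSet_Ioo (fun t ht => ?_)
  refine bm_one (measurableSet_lt measurable_const hF) (measurableSet_lt measurable_const hG)
    (hFs t ht.2) (hGs t ht.2) ha hb ?_
  intro x hx y hy
  exact h x y t ht.1.le hx hy

/-- weighted AM-GM for extended nonnegative reals -/
lemma amgm {a b : ℝ} (ha : 0 < a) (hb : 0 < b) (hab : a + b = 1) (u v : ℝ≥0∞) :
    u ^ a * v ^ b ≤ ENNReal.ofReal a * u + ENNReal.ofReal b * v := by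
  have ha0 : ENNReal.ofReal a ≠ 0 := by simpa using ha
  have hb0 : ENNReal.ofReal b ≠ 0 := by simpa using hb
  by_cases hu : u = ∞
  · rw [hu, ENNReal.mul_top ha0]; simp
  by_cases hv : v = ∞
  · rw [hv, ENNReal.mul_top hb0]; simp
  lift u to NNReal using hu
  lift v to NNReal using hv
  have hsum : a.toNNReal + b.toNNReal = 1 := by
    rw [← Real.toNNReal_add ha.le hb.le, hab, Real.toNNReal_one]
  have := NNReal.geom_mean_le_arith_mean2_weighted a.toNNReal b.toNNReal u v hsum
  rw [Real.coe_toNNReal a ha.le, Real.coe_toNNReal b hb.le] at this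
  have h2 : ((u ^ a * v ^ b : NNReal) : ℝ≥0∞) ≤
      ((a.toNNReal * u + b.toNNReal * v : NNReal) : ℝ≥0∞) := by exact_mod_cast this
  rw [← ENNReal.coe_rpow_of_nonneg _ ha.le, ← ENNReal.coe_rpow_of_nonneg _ hb.le]
  push_cast at h2
  exact h2

/-- one-dimensional Prékopa–Leindler for bounded functions -/
lemma pl_bdd {F G H : ℝ → ℝ≥0∞} (hF : Measurable F) (hG : Measurable G) (hH : Measurable H)
    {M : ℝ≥0∞} (hM : M ≠ ∞) (hFM : ∀ x, F x ≤ M) (hGM : ∀ x, G x ≤ M)
    {a b : ℝ} (ha : 0 < a) (hb : 0 < b) (hab : a + b = 1)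
    (h : ∀ x y : ℝ, F x ^ a * G y ^ b ≤ H (a * x + b * y)) :
    (∫⁻ x, F x) ^ a * (∫⁻ x, G x) ^ b ≤ ∫⁻ x, H x := by
  set A := ⨆ x, F x with hA
  set B := ⨆ x, G x with hB
  have hAM : A ≤ M := iSup_le hFM
  have hBM : B ≤ M := iSup_le hGM
  have hAt : A ≠ ∞ := ne_top_of_le_ne_top hM hAM
  have hBt : B ≠ ∞ := ne_top_of_le_ne_top hM hBM
  have hFA : ∀ x, F x ≤ A := fun x => le_iSup F x
  have hGB : ∀ x, G x ≤ B := fun x => le_iSup G x
  by_cases hA0 : A = 0
  · have : ∀ x, F x = 0 := fun x => le_antisymm (hA0 ▸ hFA x) bot_le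
    simp only [this, lintegral_zero, ENNReal.zero_rpow_of_pos ha, zero_mul]
    exact bot_le
  by_cases hB0 : B = 0
  · have : ∀ x, G x = 0 := fun x => le_antisymm (hB0 ▸ hGB x) bot_le
    simp only [this, lintegral_zero, ENNReal.zero_rpow_of_pos hb, mul_zero]
    exact bot_le
  set c : ℝ≥0∞ := A ^ a * B ^ b with hc
  have hc0 : c ≠ 0 := by
    rw [hc]
    exact mul_ne_zero (ENNReal.rpow_pos (bot_lt_iff_ne_bot.2 hA0) hAt).ne'
      (ENNReal.rpow_pos (bot_lt_iff_ne_bot.2 hB0) hBt).ne'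
  have hct : c ≠ ∞ := by
    rw [hc]
    exact ENNReal.mul_ne_top (ENNReal.rpow_ne_top_of_nonneg ha.le hAt)
      (ENNReal.rpow_ne_top_of_nonneg hb.le hBt)
  -- normalised functions
  have nF : ∀ x, F x / A ≤ 1 := fun x => ENNReal.div_le_of_le_mul (by rw [one_mul]; exact hFA x)
  have nG : ∀ x, G x / B ≤ 1 := fun x => ENNReal.div_le_of_le_mul (by rw [one_mul]; exact hGB x)
  have tF : ∀ x, F x / A ≠ ∞ := fun x => ne_top_of_le_ne_top ENNReal.one_ne_top (nF x)
  have tG : ∀ x, G x / B ≠ ∞ := fun x => ne_top_of_le_ne_top ENNReal.one_ne_top (nG x)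
  have tH : ∀ x, min (H x / c) 1 ≠ ∞ := fun x => ne_top_of_le_ne_top ENNReal.one_ne_top (min_le_right _ _)
  have key := pl_norm (F := fun x => (F x / A).toReal) (G := fun x => (G x / B).toReal)
    (H := fun x => (min (H x / c) 1).toReal)
    (hF.div_const A).ennreal_toReal (hG.div_const B).ennreal_toReal
    ((hH.div_const c).min measurable_const).ennreal_toReal
    (fun x => ENNReal.toReal_nonneg)
    (fun x => by
      rw [← ENNReal.toReal_one]
      exact ENNReal.toReal_mono ENNReal.one_ne_top (nF x))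
    (fun x => ENNReal.toReal_nonneg)
    (fun x => by
      rw [← ENNReal.toReal_one]
      exact ENNReal.toReal_mono ENNReal.one_ne_top (nG x))
    (fun x => ENNReal.toReal_nonneg)
    (fun x => by
      rw [← ENNReal.toReal_one]
      exact ENNReal.toReal_mono ENNReal.one_ne_top (min_le_right _ _))
    ?_ ?_ ha hb ?_
  · simp only [ENNReal.ofReal_toReal (tF _), ENNReal.ofReal_toReal (tG _),
      ENNReal.ofReal_toReal (tH _)] at key
    have e1 : ∫⁻ x, F x / A = (∫⁻ x, F x) / A := by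
      simp only [div_eq_mul_inv]
      rw [lintegral_mul_const _ hF]
    have e2 : ∫⁻ x, G x / B = (∫⁻ x, G x) / B := by
      simp only [div_eq_mul_inv]
      rw [lintegral_mul_const _ hG]
    have e3 : ∫⁻ x, min (H x / c) 1 ≤ (∫⁻ x, H x) / c := by
      calc ∫⁻ x, min (H x / c) 1 ≤ ∫⁻ x, H x / c := lintegral_mono (fun x => min_le_left _ _)
        _ = (∫⁻ x, H x) / c := by
          simp only [div_eq_mul_inv]
          rw [lintegral_mul_const _ hH]
    rw [e1, e2] at key
    have h5 := (amgm ha hb hab ((∫⁻ x, F x) / A) ((∫⁻ x, G x) / B)).trans (key.trans e3)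
    rw [ENNReal.div_rpow_of_nonneg _ _ ha.le, ENNReal.div_rpow_of_nonneg _ _ hb.le] at h5
    have h6 : (∫⁻ x, F x) ^ a * (∫⁻ x, G x) ^ b / c ≤ (∫⁻ x, H x) / c := by
      refine le_trans (le_of_eq ?_) h5
      rw [hc, ENNReal.div_eq_inv_mul, ENNReal.div_eq_inv_mul, ENNReal.div_eq_inv_mul,
        ENNReal.mul_inv]
      · ring
      · left
        exact (ENNReal.rpow_pos (bot_lt_iff_ne_bot.2 hA0) hAt).ne'
      · left
        exact ENNReal.rpow_ne_top_of_nonneg ha.le hAt
    have h7 := mul_le_mul_left h6 c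
    rwa [ENNReal.div_mul_cancel hc0 hct, ENNReal.div_mul_cancel hc0 hct] at h7
  · intro t ht
    rcases lt_or_ge t 0 with h0 | h0
    · exact ⟨0, lt_of_lt_of_le h0 ENNReal.toReal_nonneg⟩
    have h1 : ENNReal.ofReal t * A < A := by
      have h2 : ENNReal.ofReal t < 1 := by
        rw [← ENNReal.ofReal_one]
        exact (ENNReal.ofReal_lt_ofReal_iff one_pos).2 ht
      calc ENNReal.ofReal t * A < 1 * A := by
            exact (ENNReal.mul_lt_mul_iff_left hA0 hAt).2 h2
        _ = A := one_mul A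
    obtain ⟨x, hx⟩ := lt_iSup_iff.1 h1
    refine ⟨x, ?_⟩
    show t < (F x / A).toReal
    rw [← ENNReal.ofReal_lt_iff_lt_toReal h0 (tF x)]
    rw [ENNReal.lt_div_iff_mul_lt (Or.inl hA0) (Or.inl hAt)]
    exact hx
  · intro t ht
    rcases lt_or_ge t 0 with h0 | h0
    · exact ⟨0, lt_of_lt_of_le h0 ENNReal.toReal_nonneg⟩
    have h1 : ENNReal.ofReal t * B < B := by
      have h2 : ENNReal.ofReal t < 1 := by
        rw [← ENNReal.ofReal_one]
        exact (ENNReal.ofReal_lt_ofReal_iff one_pos).2 ht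
      calc ENNReal.ofReal t * B < 1 * B := by
            exact (ENNReal.mul_lt_mul_iff_left hB0 hBt).2 h2
        _ = B := one_mul B
    obtain ⟨x, hx⟩ := lt_iSup_iff.1 h1
    refine ⟨x, ?_⟩
    show t < (G x / B).toReal
    rw [← ENNReal.ofReal_lt_iff_lt_toReal h0 (tG x)]
    rw [ENNReal.lt_div_iff_mul_lt (Or.inl hB0) (Or.inl hBt)]
    exact hx
  · intro x y t ht hx hy
    rw [← ENNReal.ofReal_lt_iff_lt_toReal ht (tF x)] at hx
    rw [← ENNReal.ofReal_lt_iff_lt_toReal ht (tG y)] at hy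
    show t < (min (H (a * x + b * y) / c) 1).toReal
    rw [← ENNReal.ofReal_lt_iff_lt_toReal ht (tH _)]
    refine lt_min ?_ (lt_of_lt_of_le hx (nF x))
    have h1 : ENNReal.ofReal t < (F x / A) ^ a * (G y / B) ^ b := by
      have e : ENNReal.ofReal t = (ENNReal.ofReal t) ^ a * (ENNReal.ofReal t) ^ b := by
        rw [← ENNReal.rpow_add_of_nonneg _ _ ha.le hb.le, hab, ENNReal.rpow_one]
      rw [e]
      exact ENNReal.mul_lt_mul (ENNReal.rpow_lt_rpow hx ha) (ENNReal.rpow_lt_rpow hy hb)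
    refine h1.trans_le ?_
    rw [ENNReal.div_rpow_of_nonneg _ _ ha.le, ENNReal.div_rpow_of_nonneg _ _ hb.le]
    have h2 : F x ^ a / A ^ a * (G y ^ b / B ^ b) = F x ^ a * G y ^ b / c := by
      rw [hc, ENNReal.div_eq_inv_mul, ENNReal.div_eq_inv_mul, ENNReal.div_eq_inv_mul,
        ENNReal.mul_inv]
      · ring
      · left
        exact (ENNReal.rpow_pos (bot_lt_iff_ne_bot.2 hA0) hAt).ne'
      · left
        exact ENNReal.rpow_ne_top_of_nonneg ha.le hAt
    rw [h2]
    exact ENNReal.div_le_div_right (h x y) c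

/-- one-dimensional Prékopa–Leindler -/
theorem pl_one {F G H : ℝ → ℝ≥0∞} (hF : Measurable F) (hG : Measurable G) (hH : Measurable H)
    {a b : ℝ} (ha : 0 < a) (hb : 0 < b) (hab : a + b = 1)
    (h : ∀ x y : ℝ, F x ^ a * G y ^ b ≤ H (a * x + b * y)) :
    (∫⁻ x, F x) ^ a * (∫⁻ x, G x) ^ b ≤ ∫⁻ x, H x := by
  have key : ∀ k : ℕ, (∫⁻ x, min (F x) k) ^ a * (∫⁻ x, min (G x) k) ^ b ≤ ∫⁻ x, H x := by
    intro k
    refine pl_bdd (hF.min measurable_const) (hG.min measurable_const) hH
      (M := (k : ℝ≥0∞)) (ENNReal.natCast_ne_top k) (fun x => min_le_right _ _)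
      (fun x => min_le_right _ _) ha hb hab (fun x y => ?_)
    refine le_trans ?_ (h x y)
    gcongr
    · exact min_le_left _ _
    · exact min_le_left _ _
  have lim : ∀ F : ℝ → ℝ≥0∞, Measurable F →
      Tendsto (fun k : ℕ => ∫⁻ x, min (F x) k) atTop (nhds (∫⁻ x, F x)) := by
    intro F hF
    refine lintegral_tendsto_of_tendsto_of_monotone (fun k => (hF.min measurable_const).aemeasurable)
      (Eventually.of_forall (fun x j k hjk => ?_)) (Eventually.of_forall (fun x => ?_))
    · exact min_le_min_left _ (by exact_mod_cast hjk)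
    · have h1 : Tendsto (fun k : ℕ => min (F x) (k : ℝ≥0∞)) atTop (nhds (min (F x) ∞)) :=
        tendsto_const_nhds.min ENNReal.tendsto_nat_nhds_top
      simpa using h1
  have l1 := lim F hF
  have l2 := lim G hG
  -- pass to the limit in a product of powers
  by_cases hF0 : ∫⁻ x, F x = 0
  · rw [hF0, ENNReal.zero_rpow_of_pos ha, zero_mul]; exact bot_le
  by_cases hG0 : ∫⁻ x, G x = 0
  · rw [hG0, ENNReal.zero_rpow_of_pos hb, mul_zero]; exact bot_le
  have p1 : Tendsto (fun k : ℕ => (∫⁻ x, min (F x) k) ^ a) atTop (nhds ((∫⁻ x, F x) ^ a)) :=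
    (ENNReal.continuous_rpow_const.tendsto _).comp l1
  have p2 : Tendsto (fun k : ℕ => (∫⁻ x, min (G x) k) ^ b) atTop (nhds ((∫⁻ x, G x) ^ b)) :=
    (ENNReal.continuous_rpow_const.tendsto _).comp l2
  have q1 : (∫⁻ x, F x) ^ a ≠ 0 := by
    rw [ne_eq, ENNReal.rpow_eq_zero_iff]
    push Not
    exact ⟨fun h => absurd h hF0, fun _ => ha.le⟩
  have q2 : (∫⁻ x, G x) ^ b ≠ 0 := by
    rw [ne_eq, ENNReal.rpow_eq_zero_iff]
    push Not
    exact ⟨fun h => absurd h hG0, fun _ => hb.le⟩
  exact le_of_tendsto' (ENNReal.Tendsto.mul p1 (Or.inl q1) p2 (Or.inl q2)) key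

/-- Prékopa–Leindler on `Fin n → ℝ` -/
theorem pl_fin (n : ℕ) : ∀ {f g h : (Fin n → ℝ) → ℝ≥0∞}, Measurable f → Measurable g →
    Measurable h → ∀ {a b : ℝ}, 0 < a → 0 < b → a + b = 1 →
    (∀ x y, f x ^ a * g y ^ b ≤ h (a • x + b • y)) →
    (∫⁻ x, f x) ^ a * (∫⁻ x, g x) ^ b ≤ ∫⁻ x, h x := by
  induction n with
  | zero =>
    intro f g h hf hg hh a b ha hb hab H
    have e : ∀ φ : (Fin 0 → ℝ) → ℝ≥0∞, Measurable φ → ∫⁻ x, φ x = φ default := by
      intro φ hφ
      rw [volume_pi, Measure.pi_of_empty, lintegral_dirac' _ hφ]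
      congr 1
      exact Subsingleton.elim _ _
    rw [e f hf, e g hg, e h hh]
    have hd : a • (default : Fin 0 → ℝ) + b • (default : Fin 0 → ℝ) = default :=
      Subsingleton.elim _ _
    have h1 := H default default
    rwa [hd] at h1
  | succ n ih =>
    intro f g h hf hg hh a b ha hb hab H
    set e := MeasurableEquiv.piFinSuccAbove (fun _ : Fin (n + 1) => ℝ) 0 with he
    have hmp := (volume_preserving_piFinSuccAbove (fun _ : Fin (n + 1) => ℝ) 0).symm
    have key : ∀ φ : (Fin (n + 1) → ℝ) → ℝ≥0∞, Measurable φ →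
        ∫⁻ x, φ x = ∫⁻ s, ∫⁻ x', φ (e.symm (s, x')) := by
      intro φ hφ
      rw [← hmp.lintegral_comp_emb e.symm.measurableEmbedding φ]
      rw [Measure.volume_eq_prod]
      exact lintegral_prod (fun z => φ (e.symm z)) (hφ.comp e.symm.measurable).aemeasurable
    have meas : ∀ φ : (Fin (n + 1) → ℝ) → ℝ≥0∞, Measurable φ →
        Measurable (fun s => ∫⁻ x', φ (e.symm (s, x'))) := by
      intro φ hφ
      exact (hφ.comp e.symm.measurable).lintegral_prod_right'
    rw [key f hf, key g hg, key h hh]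
    refine pl_one (meas f hf) (meas g hg) (meas h hh) ha hb hab (fun s t => ?_)
    refine ih (f := fun x' => f (e.symm (s, x'))) (g := fun x' => g (e.symm (t, x')))
      (h := fun x' => h (e.symm (a * s + b * t, x')))
      (hf.comp (e.symm.measurable.comp measurable_prodMk_left))
      (hg.comp (e.symm.measurable.comp measurable_prodMk_left))
      (hh.comp (e.symm.measurable.comp measurable_prodMk_left)) ha hb hab (fun x y => ?_)
    have h1 := H (e.symm (s, x)) (e.symm (t, y))
    have h2 : a • e.symm (s, x) + b • e.symm (t, y) = e.symm (a * s + b * t, a • x + b • y) := by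
      ext i
      refine Fin.cases ?_ (fun j => ?_) i
      · simp [he, MeasurableEquiv.piFinSuccAbove]
      · simp [he, MeasurableEquiv.piFinSuccAbove]
    rw [h2] at h1
    exact h1

/-- **Prékopa–Leindler inequality** on `ι → ℝ` for a finite type `ι`. -/
theorem prekopa_leindler {ι : Type*} [Fintype ι] {f g h : (ι → ℝ) → ℝ≥0∞} (hf : Measurable f)
    (hg : Measurable g) (hh : Measurable h) {a b : ℝ} (ha : 0 < a) (hb : 0 < b) (hab : a + b = 1)
    (H : ∀ x y, f x ^ a * g y ^ b ≤ h (a • x + b • y)) :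
    (∫⁻ x, f x) ^ a * (∫⁻ x, g x) ^ b ≤ ∫⁻ x, h x := by
  set e := Fintype.equivFin ι
  set T := MeasurableEquiv.piCongrLeft (fun _ : ι => ℝ) e.symm with hT
  have hmp := volume_measurePreserving_piCongrLeft (fun _ : ι => ℝ) e.symm
  have key : ∀ φ : (ι → ℝ) → ℝ≥0∞, ∫⁻ x, φ x = ∫⁻ x, φ (T x) := by
    intro φ
    rw [← hmp.lintegral_comp_emb T.measurableEmbedding φ]
  rw [key f, key g, key h]
  refine pl_fin _ (hf.comp T.measurable) (hg.comp T.measurable) (hh.comp T.measurable) ha hb hab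
    (fun x y => ?_)
  have hT2 : T (a • x + b • y) = a • T x + b • T y := by
    ext i
    simp [hT, MeasurableEquiv.piCongrLeft, Equiv.piCongrLeft]
  show f (T x) ^ a * g (T y) ^ b ≤ h (T (a • x + b • y))
  rw [hT2]
  exact H (T x) (T y)

end Pool.Agent.H.MP_d7d3dc_an.PL98
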